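import Pool.Agent.Y679.Kf.Good
import Pool.Agent.H510R2.Div

/-! Counting the twists of the members of a family by the conductor (helper679). -/

set_option autoImplicit false

namespace Pool.Agent.Y679.Kf

open Finset Polynomial
open Pool.Agent.TH867.SQ (lr lr_nonneg lr_mul lr_dvd)
open Pool.Agent.TH867.QF (Fm ev va Rs Rs_pos rs_dvd Pt U U_pos ht ht_pos va_pos va_le cross1 cross2)
open Pool.Agent.TH498.KB (Mem MinS Cond hom_eval prim_of_minS)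
open Pool.Agent.W4.VC (hom)

/-- the number of the twists with a given point -/
theorem q_count {V : ℕ} (hV : V ≠ 0) {T G : ℝ} (hT : 0 ≤ T) (hG : 0 < G) (F : Finset ℕ)
    (hF : ∀ q ∈ F, Squarefree q ∧ (Wt V q : ℝ) ≤ T ∧ G ≤ gg V q) :
    (F.card : ℝ) ≤ (rd V).divisors.card * Real.sqrt (T / (G * rd V)) := by
  classical
  have hR : (0 : ℝ) < rd V := by exact_mod_cast rd_pos V
  obtain ⟨z, hz⟩ : ∃ z : ℕ, z = ⌊Real.sqrt (T / (G * rd V))⌋₊ := ⟨_, rfl⟩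
  have hzz : (z : ℝ) ≤ Real.sqrt (T / (G * rd V)) := by
    rw [hz]; exact Nat.floor_le (Real.sqrt_nonneg _)
  have hmem : ∀ q ∈ F, (gg V q, q / gg V q) ∈ (rd V).divisors ×ˢ Finset.Ioc 0 z := by
    intro q hq
    obtain ⟨h1, h2, h3⟩ := hF q hq
    have hg := gg_pos V q
    have hd := gg_dvd V q
    obtain ⟨q', hq'⟩ := hd
    have hq0 : 0 < q' := by
      rcases Nat.eq_zero_or_pos q' with h4 | h4
      · rw [h4, mul_zero] at hq'
        exact absurd hq' h1.ne_zero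
      · exact h4
    have hdiv : q / gg V q = q' := Nat.div_eq_of_eq_mul_right hg hq'
    rw [mem_product, Nat.mem_divisors, mem_Ioc]
    simp only
    refine ⟨⟨gg_dvd_rd V q, (rd_pos V).ne'⟩, ?_⟩
    rw [hdiv]
    refine ⟨hq0, ?_⟩
    rw [hz]
    refine Nat.le_floor ?_
    refine Real.le_sqrt_of_sq_le ?_
    rw [le_div_iff₀ (by positivity)]
    have h5 : Wt V q = q' ^ 2 * gg V q * rd V := by
      have h6 := Wt_gg hV h1
      have h7 : Wt V q * gg V q = (q' ^ 2 * gg V q * rd V) * gg V q := by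
        rw [h6]
        conv_lhs => rw [hq']
        ring
      exact Nat.eq_of_mul_eq_mul_right hg h7
    calc (q' : ℝ) ^ 2 * (G * rd V) ≤ (q' : ℝ) ^ 2 * (gg V q * rd V) := by gcongr
      _ = (Wt V q : ℝ) := by rw [h5]; push_cast; ring
      _ ≤ T := h2
  have hinj : Set.InjOn (fun q => (gg V q, q / gg V q)) (F : Set ℕ) := by
    intro q _ q' _ h
    simp only [Prod.mk.injEq] at h
    rw [← Nat.mul_div_cancel' (gg_dvd V q), ← Nat.mul_div_cancel' (gg_dvd V q'), h.1]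
    rw [h.1] at h
    rw [h.2]
  have h1 := Finset.card_le_card_of_injOn _ hmem hinj
  rw [card_product, Nat.card_Ioc, Nat.sub_zero] at h1
  have h2 : (F.card : ℝ) ≤ (rd V).divisors.card * z := by exact_mod_cast h1
  exact h2.trans (mul_le_mul_of_nonneg_left hzz (by positivity))

variable {r : ℕ} {A B : ℤ[X]} {k : ℕ} {L : Fm r} {e : Fin r → ℕ} {c : ℤ}

/-- a choice of the parameters -/
structure Sel (A B : ℤ[X]) (k : ℕ) (L : Fm r) (M : ℕ) (pt : ℤ × ℤ → ℤ × ℤ) (qq ss : ℤ × ℤ → ℤ) :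
    Prop where
  all : ∀ p : ℤ × ℤ, MinS p.1 p.2 → TwMem A B p.1 p.2 → 0 < (pt p).2 ∧ Pt L (pt p) ∧ 0 < ss p ∧
    ss p ∣ M ∧ qq p ≠ 0 ∧ Squarefree (qq p).natAbs ∧ Rel A B k p.1 p.2 (pt p) (qq p) (ss p)

theorem sel_ex (h : RF A B k L e c) {M : ℕ} (hM : GcdM A B k M) :
    ∃ (pt : ℤ × ℤ → ℤ × ℤ) (qq ss : ℤ × ℤ → ℤ), Sel A B k L M pt qq ss := by
  classical
  have h1 : ∀ p : ℤ × ℤ, ∃ w : (ℤ × ℤ) × ℤ × ℤ, MinS p.1 p.2 → TwMem A B p.1 p.2 → 0 < w.1.2 ∧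
      Pt L w.1 ∧ 0 < w.2.2 ∧ w.2.2 ∣ M ∧ w.2.1 ≠ 0 ∧ Squarefree w.2.1.natAbs ∧
      Rel A B k p.1 p.2 w.1 w.2.1 w.2.2 := by
    intro p
    by_cases hp : MinS p.1 p.2 ∧ TwMem A B p.1 p.2
    · obtain ⟨P, q, s, g⟩ := par2 h hM hp.1 hp.2
      exact ⟨(P, q, s), fun _ _ => g⟩
    · exact ⟨((0, 0), 0, 0), fun g1 g2 => absurd ⟨g1, g2⟩ hp⟩
  choose w hw using h1
  exact ⟨fun p => (w p).1, fun p => (w p).2.1, fun p => (w p).2.2, ⟨hw⟩⟩

theorem rel_inj {a b a' b' q s : ℤ} {P : ℤ × ℤ} (hs : s ≠ 0) (h1 : Rel A B k a b P q s)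
    (h2 : Rel A B k a' b' P q s) : a = a' ∧ b = b' :=
  ⟨mul_right_cancel₀ (pow_ne_zero 2 hs) (h1.h1.trans h2.h1.symm),
    mul_right_cancel₀ (pow_ne_zero 3 hs) (h1.h2.trans h2.h2.symm)⟩

theorem tw_card (h : RF A B k L e c) {M : ℕ} (hM1 : 1 ≤ M) (hM : GcdM A B k M)
    {pt : ℤ × ℤ → ℤ × ℤ} {qq ss : ℤ × ℤ → ℤ} (hsel : Sel A B k L M pt qq ss) {N : ℝ} (hN : 0 ≤ N)
    (G : ℤ × ℤ → ℝ) (hG : ∀ P, 0 < G P) (F : Finset (ℤ × ℤ))
    (hF : ∀ p ∈ F, MinS p.1 p.2 ∧ TwMem A B p.1 p.2 ∧ (Cond p.1 p.2 : ℝ) ≤ N ∧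
      G (pt p) ≤ gg (Vp L (pt p)) (qq p).natAbs) :
    (F.card : ℝ) ≤ 2 * M * ∑ P ∈ F.image pt, (rd (Vp L P)).divisors.card *
      Real.sqrt ((Mc M c : ℝ) ^ 2 * N / (G P * rd (Vp L P))) := by
  classical
  obtain ⟨φ, hφ⟩ : ∃ φ : ℤ × ℤ → (ℤ × ℤ) × ℕ, φ = fun p => (pt p, (qq p).natAbs) := ⟨_, rfl⟩
  -- the fibres
  have hfib : ∀ w ∈ F.image φ, (F.filter fun p => φ p = w).card ≤ 2 * M := by
    intro w _
    have hinj : Set.InjOn (fun p => (decide (0 < qq p), (ss p).natAbs))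
        ((F.filter fun p => φ p = w : Finset (ℤ × ℤ)) : Set (ℤ × ℤ)) := by
      intro p hp p' hp' hpp
      obtain ⟨g1, g2⟩ := mem_filter.1 (mem_coe.1 hp)
      obtain ⟨g1', g2'⟩ := mem_filter.1 (mem_coe.1 hp')
      obtain ⟨f1, f2, -, -⟩ := hF p g1
      obtain ⟨f1', f2', -, -⟩ := hF p' g1'
      obtain ⟨k1, k2, k3, k4, k5, k6, k7⟩ := hsel.all p f1 f2
      obtain ⟨k1', k2', k3', k4', k5', k6', k7'⟩ := hsel.all p' f1' f2'
      rw [← g2', hφ] at g2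
      simp only [Prod.mk.injEq] at g2 hpp
      obtain ⟨i1, i2⟩ := g2
      obtain ⟨i3, i4⟩ := hpp
      have hs : ss p = ss p' := by
        rw [← Int.natAbs_of_nonneg k3.le, ← Int.natAbs_of_nonneg k3'.le, i4]
      have hq : qq p = qq p' := by
        have i3' : 0 < qq p ↔ 0 < qq p' := by
          constructor
          · intro h0
            rw [decide_eq_true h0] at i3
            exact of_decide_eq_true i3.symm
          · intro h0
            rw [decide_eq_true h0] at i3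
            exact of_decide_eq_true i3
        omega
      rw [i1, hs, hq] at k7
      obtain ⟨j1, j2⟩ := rel_inj k3'.ne' k7 k7'
      exact Prod.ext j1 j2
    have hmem : ∀ p ∈ F.filter (fun p => φ p = w), (decide (0 < qq p), (ss p).natAbs) ∈
        (Finset.univ : Finset Bool) ×ˢ Finset.Ioc 0 M := by
      intro p hp
      obtain ⟨g1, g2⟩ := mem_filter.1 hp
      obtain ⟨f1, f2, -, -⟩ := hF p g1
      obtain ⟨k1, k2, k3, k4, k5, k6, k7⟩ := hsel.all p f1 f2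
      rw [mem_product, mem_Ioc]
      refine ⟨mem_univ _, ?_, ?_⟩
      · simp only
        omega
      · exact Nat.le_of_dvd hM1 (Int.natAbs_dvd_natAbs.2 k4)
    refine (Finset.card_le_card_of_injOn _ hmem hinj).trans ?_
    rw [card_product, Nat.card_Ioc, card_univ, Fintype.card_bool, Nat.sub_zero]
  have h1 : F.card ≤ 2 * M * (F.image φ).card := Finset.card_le_mul_card_image F (2 * M) hfib
  -- the pairs
  have h2 : (F.image φ).card = ∑ P ∈ F.image pt,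
      ((F.image φ).filter fun w => w.1 = P).card := by
    refine Finset.card_eq_sum_card_fiberwise ?_
    intro w hw
    obtain ⟨p, hp, rfl⟩ := mem_image.1 (mem_coe.1 hw)
    rw [hφ]
    exact mem_coe.2 (mem_image_of_mem pt hp)
  have h3 : ∀ P ∈ F.image pt, ((((F.image φ).filter fun w => w.1 = P).card : ℕ) : ℝ) ≤
      (rd (Vp L P)).divisors.card * Real.sqrt ((Mc M c : ℝ) ^ 2 * N / (G P * rd (Vp L P))) := by
    intro P hP
    obtain ⟨p0, hp0, hp0P⟩ := mem_image.1 hP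
    obtain ⟨f1, f2, f3, -⟩ := hF p0 hp0
    obtain ⟨k1, k2, -⟩ := hsel.all p0 f1 f2
    rw [hp0P] at k2
    have h4 : ((F.image φ).filter fun w => w.1 = P).card =
        (((F.image φ).filter fun w => w.1 = P).image Prod.snd).card := by
      rw [Finset.card_image_of_injOn]
      intro w hw w' hw' hww
      obtain ⟨-, g2⟩ := mem_filter.1 (mem_coe.1 hw)
      obtain ⟨-, g2'⟩ := mem_filter.1 (mem_coe.1 hw')
      exact Prod.ext (g2.trans g2'.symm) hww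
    rw [h4]
    refine q_count (Vp_ne k2) (by positivity) (hG P) _ fun q hq => ?_
    obtain ⟨w, hw, rfl⟩ := mem_image.1 hq
    obtain ⟨hw1, hw2⟩ := mem_filter.1 hw
    obtain ⟨p, hp, rfl⟩ := mem_image.1 hw1
    rw [hφ] at hw2 ⊢
    simp only at hw2 ⊢
    obtain ⟨f1, f2, f3, f4⟩ := hF p hp
    obtain ⟨k1, k2, k3, k4, k5, k6, k7⟩ := hsel.all p f1 f2
    rw [hw2] at f4
    refine ⟨k6, ?_, f4⟩
    have h5 := cond_ge h hM1 hM k1.ne' k2 k4 f1.1 k7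
    rw [hw2] at h5
    have h6 : (Wt (Vp L P) (qq p).natAbs : ℝ) ≤ (Mc M c : ℝ) ^ 2 * Cond p.1 p.2 := by
      exact_mod_cast h5
    exact h6.trans (mul_le_mul_of_nonneg_left f3 (by positivity))
  have h4 : ((F.image φ).card : ℝ) ≤ ∑ P ∈ F.image pt, (rd (Vp L P)).divisors.card *
      Real.sqrt ((Mc M c : ℝ) ^ 2 * N / (G P * rd (Vp L P))) := by
    rw [h2]
    push_cast
    exact Finset.sum_le_sum h3
  have h5 : (F.card : ℝ) ≤ 2 * M * (F.image φ).card := by exact_mod_cast h1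
  exact h5.trans (mul_le_mul_of_nonneg_left h4 (by positivity))

/-- the weight of a point -/
noncomputable def rw' (L : Fm r) (P : ℤ × ℤ) : ℝ := Real.exp (sr L P)

theorem rw'_ge (L : Fm r) (P : ℤ × ℤ) : 1 ≤ rw' L P := Real.one_le_exp (sr_nonneg L P)

theorem rd_ge {P : ℤ × ℤ} (h : Pt L P) : rw' L P ≤ (Rs L : ℝ) ^ r * rd (Vp L P) := by
  have h1 := sr_le h
  rw [lr_rd] at h1
  have hR : (0 : ℝ) < rd (Vp L P) := by exact_mod_cast rd_pos _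
  have hRs : (0 : ℝ) < Rs L := by exact_mod_cast Rs_pos L
  unfold rw'
  rw [← Real.le_log_iff_exp_le (by positivity), Real.log_mul (by positivity) hR.ne', Real.log_pow]
  linarith

theorem rd_le' {P : ℤ × ℤ} (h : Pt L P) : (rd (Vp L P) : ℝ) ≤ rw' L P := by
  have hR : (0 : ℝ) < rd (Vp L P) := by exact_mod_cast rd_pos _
  unfold rw'
  rw [← Real.log_le_iff_le_exp hR, ← lr_rd]
  exact lr_Vp_le h

theorem tw_card2 (h : RF A B k L e c) {M : ℕ} (hM1 : 1 ≤ M) (hM : GcdM A B k M)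
    {pt : ℤ × ℤ → ℤ × ℤ} {qq ss : ℤ × ℤ → ℤ} (hsel : Sel A B k L M pt qq ss) {ε γ : ℝ}
    (hε : 0 < ε) (hε2 : ε < 1 / 2) : ∃ C : ℝ, 0 < C ∧ ∀ N : ℝ, 0 ≤ N →
    ∀ F : Finset (ℤ × ℤ),
    (∀ p ∈ F, MinS p.1 p.2 ∧ TwMem A B p.1 p.2 ∧ (Cond p.1 p.2 : ℝ) ≤ N ∧
      rw' L (pt p) ^ γ ≤ gg (Vp L (pt p)) (qq p).natAbs) →
    (F.card : ℝ) ≤ C * Real.sqrt N * ∑ P ∈ F.image pt, rw' L P ^ (-(1 / 2 - ε + γ / 2)) := by
  classical
  obtain ⟨Cτ, hCτ, hτ⟩ := Pool.Agent.H510R2.divisor_bound ε hε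
  have hRs : (1 : ℝ) ≤ Rs L := by exact_mod_cast Rs_pos L
  obtain ⟨κ, hκ⟩ : ∃ κ : ℝ, κ = (Rs L : ℝ) ^ r := ⟨_, rfl⟩
  have hκ1 : 1 ≤ κ := by rw [hκ]; exact one_le_pow₀ hRs
  have hκ0 : 0 < κ := by linarith
  have hMc : (0 : ℝ) < Mc M c := by
    exact_mod_cast Nat.pos_of_ne_zero (Mc_ne hM1 h.hc)
  refine ⟨2 * M * (Cτ * Mc M c * κ ^ (1 / 2 : ℝ)), by positivity, fun N hN F hF => ?_⟩
  have h1 := tw_card h hM1 hM hsel hN (fun P => rw' L P ^ γ) (fun P => by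
    have := rw'_ge L P
    positivity) F hF
  refine h1.trans ?_
  have h2 : ∀ P ∈ F.image pt, (rd (Vp L P)).divisors.card *
      Real.sqrt ((Mc M c : ℝ) ^ 2 * N / (rw' L P ^ γ * rd (Vp L P))) ≤
      (Cτ * Mc M c * κ ^ (1 / 2 : ℝ)) * Real.sqrt N * rw' L P ^ (-(1 / 2 - ε + γ / 2)) := by
    intro P hP
    obtain ⟨p, hp, rfl⟩ := mem_image.1 hP
    obtain ⟨f1, f2, f3, f4⟩ := hF p hp
    obtain ⟨k1, k2, -⟩ := hsel.all p f1 f2
    obtain ⟨ρ, hρ⟩ : ∃ ρ : ℝ, ρ = rw' L (pt p) := ⟨_, rfl⟩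
    obtain ⟨R, hR⟩ : ∃ R : ℝ, R = (rd (Vp L (pt p)) : ℝ) := ⟨_, rfl⟩
    have hρ1 : 1 ≤ ρ := by rw [hρ]; exact rw'_ge L _
    have hR1 : 1 ≤ R := by rw [hR]; exact_mod_cast rd_pos _
    have g1 : ρ ≤ κ * R := by rw [hρ, hR, hκ]; exact rd_ge k2
    have g2 : R ≤ ρ := by rw [hρ, hR]; exact rd_le' k2
    have g3 : ((rd (Vp L (pt p))).divisors.card : ℝ) ≤ Cτ * ρ ^ ε := by
      refine (hτ _ (rd_pos _)).trans ?_
      rw [← hR]
      exact mul_le_mul_of_nonneg_left (Real.rpow_le_rpow (by linarith) g2 hε.le) hCτ.le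
    rw [← hρ, ← hR]
    have hρ0 : 0 < ρ := by linarith
    have hR0 : 0 < R := by linarith
    have g4 : Real.sqrt ((Mc M c : ℝ) ^ 2 * N / (ρ ^ γ * R)) ≤
        Mc M c * Real.sqrt N * (κ ^ (1 / 2 : ℝ) * ρ ^ (-(1 / 2 + γ / 2))) := by
      have g5 : (Mc M c : ℝ) ^ 2 * N / (ρ ^ γ * R) ≤ (Mc M c : ℝ) ^ 2 * N * (κ * ρ ^ (-(1 + γ))) := by
        rw [div_eq_mul_inv]
        refine mul_le_mul_of_nonneg_left ?_ (by positivity)
        rw [Real.rpow_neg hρ0.le, Real.rpow_add hρ0, Real.rpow_one,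
          inv_le_iff_one_le_mul₀ (by positivity)]
        have g6 : 1 ≤ κ * R * ρ⁻¹ := by
          rw [← div_eq_mul_inv, le_div_iff₀ hρ0]; linarith
        have g7 : κ * (ρ * ρ ^ γ)⁻¹ * (ρ ^ γ * R) = κ * R * ρ⁻¹ := by
          field_simp
        linarith
      refine (Real.sqrt_le_sqrt g5).trans (le_of_eq ?_)
      rw [Real.sqrt_mul (by positivity), Real.sqrt_mul (by positivity), Real.sqrt_sq hMc.le,
        Real.sqrt_mul hκ0.le, Real.sqrt_eq_rpow κ, Real.sqrt_eq_rpow (ρ ^ (-(1 + γ))),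
        ← Real.rpow_mul hρ0.le]
      congr 3
      ring
    calc ((rd (Vp L (pt p))).divisors.card : ℝ) * Real.sqrt ((Mc M c : ℝ) ^ 2 * N / (ρ ^ γ * R)) ≤
        (Cτ * ρ ^ ε) * (Mc M c * Real.sqrt N * (κ ^ (1 / 2 : ℝ) * ρ ^ (-(1 / 2 + γ / 2)))) :=
          mul_le_mul g3 g4 (Real.sqrt_nonneg _) (by positivity)
      _ = (Cτ * Mc M c * κ ^ (1 / 2 : ℝ)) * Real.sqrt N * (ρ ^ ε * ρ ^ (-(1 / 2 + γ / 2))) := by ring
      _ = _ := by
        rw [← Real.rpow_add hρ0]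
        congr 2
        ring
  calc 2 * (M : ℝ) * ∑ P ∈ F.image pt, (rd (Vp L P)).divisors.card *
      Real.sqrt ((Mc M c : ℝ) ^ 2 * N / (rw' L P ^ γ * rd (Vp L P))) ≤
      2 * (M : ℝ) * ∑ P ∈ F.image pt, (Cτ * Mc M c * κ ^ (1 / 2 : ℝ)) * Real.sqrt N *
        rw' L P ^ (-(1 / 2 - ε + γ / 2)) :=
        mul_le_mul_of_nonneg_left (Finset.sum_le_sum h2) (by positivity)
    _ = _ := by
      rw [← Finset.mul_sum]
      ring

/-- a set all of whose finite subsets are small -/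
theorem fin_card {α : Type*} {S : Set α} {B : ℝ}
    (h : ∀ F : Finset α, (∀ p ∈ F, p ∈ S) → (F.card : ℝ) ≤ B) : S.Finite ∧ (S.ncard : ℝ) ≤ B := by
  have hfin : S.Finite := by
    by_contra hcon
    obtain ⟨n, hn⟩ := exists_nat_gt B
    obtain ⟨t, ht1, ht2⟩ := Set.Infinite.exists_subset_card_eq hcon n
    have h1 := h t fun p hp => ht1 (mem_coe.2 hp)
    rw [ht2] at h1
    linarith
  refine ⟨hfin, ?_⟩
  rw [Set.ncard_eq_toFinset_card _ hfin]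
  exact h _ fun p hp => hfin.mem_toFinset.1 hp

end Pool.Agent.Y679.Kf
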