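import Pool.Agent.Y679.Kf.Line
import Pool.Agent.TH498.KB.Tors

/-! One-parameter families of elliptic curves over the rationals, all singular fibres multiplicative
and over rational points: the parameters of a minimal model, of a member or of a twist of a member
(helper679). -/

set_option autoImplicit false

namespace Pool.Agent.Y679.Kf

open Finset Polynomial
open Pool.Agent.TH867.QF (Fm ev va Rs Rs_pos Pt U U_pos ht ht_pos va_pos va_le)
open Pool.Agent.TH498.KB (Mem MinS Cond bez hom_eval prim_of_minS)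
open Pool.Agent.W4.VC (hom)

variable {r : ℕ}

/-- the data of a family -/
structure RF (A B : ℤ[X]) (k : ℕ) (L : Fm r) (e : Fin r → ℕ) (c : ℤ) : Prop where
  hk : 1 ≤ k
  hA : A.natDegree ≤ 2 * k
  hB : B.natDegree ≤ 3 * k
  hlead : A.natDegree = 2 * k ∨ B.natDegree = 3 * k
  hcop : IsCoprime (A.map (Int.castRingHom ℚ)) (B.map (Int.castRingHom ℚ))
  he : ∀ i, 1 ≤ e i
  hsum : ∑ i, e i = 6 * k
  hc : c ≠ 0
  disc : 4 * A ^ 3 - 27 * B ^ 2 = C c * ∏ i, (C (L.u i) * X + C (L.w i)) ^ e i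

/-- the discriminant form -/
def Ds (L : Fm r) (e : Fin r → ℕ) (c : ℤ) (P : ℤ × ℤ) : ℤ := c * ∏ i, ev L P i ^ e i

/-- twists of the members of the family -/
def TwMem (A B : ℤ[X]) (a b : ℤ) : Prop :=
  ∃ t δ : ℚ, δ ≠ 0 ∧ (a : ℚ) = δ ^ 2 * (A.map (Int.castRingHom ℚ)).eval t ∧
    (b : ℚ) = δ ^ 3 * (B.map (Int.castRingHom ℚ)).eval t

variable {A B : ℤ[X]} {k : ℕ} {L : Fm r} {e : Fin r → ℕ} {c : ℤ}

theorem disc_eval (h : RF A B k L e c) (t : ℚ) :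
    4 * (A.map (Int.castRingHom ℚ)).eval t ^ 3 - 27 * (B.map (Int.castRingHom ℚ)).eval t ^ 2 =
      c * ∏ i, ((L.u i : ℚ) * t + L.w i) ^ e i := by
  have h1 := congrArg (fun f : ℤ[X] => (f.map (Int.castRingHom ℚ)).eval t) h.disc
  simp only [Polynomial.map_sub, Polynomial.map_mul, Polynomial.map_pow, Polynomial.map_ofNat,
    Polynomial.map_prod, Polynomial.map_add, map_C, map_X, eval_sub, eval_mul, eval_pow, eval_ofNat,
    eval_C, eval_add, eval_X, eval_prod] at h1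
  simp only [eq_intCast] at h1
  exact h1

theorem disc_hom (h : RF A B k L e c) (P : ℤ × ℤ) (hP : P.2 ≠ 0) :
    4 * hom A (2 * k) P.1 P.2 ^ 3 - 27 * hom B (3 * k) P.1 P.2 ^ 2 = Ds L e c P := by
  have hq : (P.2 : ℚ) ≠ 0 := by exact_mod_cast hP
  have e1 : (((4 * hom A (2 * k) P.1 P.2 ^ 3 - 27 * hom B (3 * k) P.1 P.2 ^ 2 : ℤ)) : ℚ) =
      ((Ds L e c P : ℤ) : ℚ) := by
    push_cast
    rw [hom_eval A (2 * k) h.hA _ _ hq, hom_eval B (3 * k) h.hB _ _ hq]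
    have e2 := disc_eval h ((P.1 : ℚ) / P.2)
    have e3 : (4 * ((P.2 : ℚ) ^ (2 * k) * (A.map (Int.castRingHom ℚ)).eval ((P.1 : ℚ) / P.2)) ^ 3 -
        27 * ((P.2 : ℚ) ^ (3 * k) * (B.map (Int.castRingHom ℚ)).eval ((P.1 : ℚ) / P.2)) ^ 2) =
        (P.2 : ℚ) ^ (6 * k) * (4 * (A.map (Int.castRingHom ℚ)).eval ((P.1 : ℚ) / P.2) ^ 3 -
          27 * (B.map (Int.castRingHom ℚ)).eval ((P.1 : ℚ) / P.2) ^ 2) := by
      have k1 : ((P.2 : ℚ) ^ (2 * k)) ^ 3 = (P.2 : ℚ) ^ (6 * k) := by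
        rw [← pow_mul]; congr 1; ring
      have k2 : ((P.2 : ℚ) ^ (3 * k)) ^ 2 = (P.2 : ℚ) ^ (6 * k) := by
        rw [← pow_mul]; congr 1; ring
      rw [mul_pow, mul_pow, k1, k2]
      ring
    rw [e3, e2, ← h.hsum, ← Finset.prod_pow_eq_pow_sum]
    unfold Ds
    push_cast
    rw [mul_left_comm, ← Finset.prod_mul_distrib]
    congr 1
    refine Finset.prod_congr rfl fun i _ => ?_
    rw [← mul_pow]
    congr 1
    unfold ev
    push_cast
    field_simp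
  exact_mod_cast e1

theorem Ds_ne {L : Fm r} {e : Fin r → ℕ} {c : ℤ} {P : ℤ × ℤ} (hc : c ≠ 0) (h : Pt L P) :
    Ds L e c P ≠ 0 :=
  mul_ne_zero hc (Finset.prod_ne_zero_iff.2 fun i _ => pow_ne_zero _ (h.ne i))

theorem ne_of_Ds {L : Fm r} {e : Fin r → ℕ} {c : ℤ} {P : ℤ × ℤ} (he : ∀ i, 1 ≤ e i)
    (h : Ds L e c P ≠ 0) : ∀ i, ev L P i ≠ 0 := by
  intro i h0
  apply h
  unfold Ds
  rw [Finset.prod_eq_zero (Finset.mem_univ i), mul_zero]
  rw [h0, zero_pow]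
  have := he i
  omega

/-- the relation between a model, a point, and a twist -/
structure Rel (A B : ℤ[X]) (k : ℕ) (a b : ℤ) (P : ℤ × ℤ) (q s : ℤ) : Prop where
  h1 : a * s ^ 2 = q ^ 2 * hom A (2 * k) P.1 P.2
  h2 : b * s ^ 3 = q ^ 3 * hom B (3 * k) P.1 P.2

theorem Rel.disc {a b q s : ℤ} {P : ℤ × ℤ} (h : RF A B k L e c) (hP : P.2 ≠ 0)
    (hr : Rel A B k a b P q s) : (4 * a ^ 3 - 27 * b ^ 2) * s ^ 6 = q ^ 6 * Ds L e c P := by
  rw [← disc_hom h P hP]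
  have e1 : (4 * a ^ 3 - 27 * b ^ 2) * s ^ 6 = 4 * (a * s ^ 2) ^ 3 - 27 * (b * s ^ 3) ^ 2 := by ring
  rw [e1, hr.h1, hr.h2]
  ring

/-- a common divisor of the two values divides `M` -/
def GcdM (A B : ℤ[X]) (k : ℕ) (M : ℕ) : Prop :=
  ∀ a b : ℤ, IsCoprime a b → ∀ d : ℤ, d ∣ hom A (2 * k) a b → d ∣ hom B (3 * k) a b → d ∣ (M : ℤ)

theorem gcdM_ex (h : RF A B k L e c) : ∃ M : ℕ, 1 ≤ M ∧ GcdM A B k M := by
  have hk := h.hk
  rcases h.hlead with h3 | h3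
  · obtain ⟨M, K, h1, -, h2⟩ := bez A B (2 * k) (3 * k) (by omega) (by omega) h.hA h.hB h.hcop (by
      rw [← h3]
      intro h0
      have h1 : A = 0 := leadingCoeff_eq_zero.mp h0
      rw [h1, natDegree_zero] at h3
      omega)
    exact ⟨M, h1, fun a b hab d hd1 hd2 => (h2 a b hab).1 d hd1 hd2⟩
  · obtain ⟨M, K, h1, -, h2⟩ := bez B A (3 * k) (2 * k) (by omega) (by omega) h.hB h.hA
      h.hcop.symm (by
        rw [← h3]
        intro h0
        have h1 : B = 0 := leadingCoeff_eq_zero.mp h0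
        rw [h1, natDegree_zero] at h3
        omega)
    exact ⟨M, h1, fun a b hab d hd1 hd2 => (h2 a b hab).1 d hd2 hd1⟩

/-- **the parameters of a minimal model** -/
theorem par (h : RF A B k L e c) {M : ℕ} (hM : GcdM A B k M) {a b : ℤ} (hmin : MinS a b)
    {t δ : ℚ} (hδ : δ ≠ 0) (ha : (a : ℚ) = δ ^ 2 * (A.map (Int.castRingHom ℚ)).eval t)
    (hb : (b : ℚ) = δ ^ 3 * (B.map (Int.castRingHom ℚ)).eval t) :
    Pt L (t.num, (t.den : ℤ)) ∧
    ((δ / (t.den : ℚ) ^ k).den : ℤ) ∣ M ∧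
    (δ / (t.den : ℚ) ^ k).num ≠ 0 ∧
    Squarefree (δ / (t.den : ℚ) ^ k).num ∧
    Rel A B k a b (t.num, (t.den : ℤ)) (δ / (t.den : ℚ) ^ k).num
      ((δ / (t.den : ℚ) ^ k).den : ℤ) := by
  obtain ⟨ρ, hρ⟩ : ∃ ρ : ℚ, ρ = δ / (t.den : ℚ) ^ k := ⟨_, rfl⟩
  rw [← hρ]
  have hn0 : (t.den : ℚ) ≠ 0 := by exact_mod_cast t.den_nz
  have hn0' : (((t.den : ℤ)) : ℚ) ≠ 0 := by exact_mod_cast t.den_nz
  have hρ0 : ρ ≠ 0 := by rw [hρ]; exact div_ne_zero hδ (pow_ne_zero _ hn0)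
  have hδρ : δ = ρ * (t.den : ℚ) ^ k := by
    rw [hρ, div_mul_cancel₀ _ (pow_ne_zero _ hn0)]
  obtain ⟨q, hq⟩ : ∃ q : ℤ, q = ρ.num := ⟨_, rfl⟩
  obtain ⟨s, hs⟩ : ∃ s : ℤ, s = (ρ.den : ℤ) := ⟨_, rfl⟩
  rw [← hq, ← hs]
  have hs0 : s ≠ 0 := by rw [hs]; exact_mod_cast ρ.den_nz
  have hsQ : (s : ℚ) ≠ 0 := by exact_mod_cast hs0
  have hq0 : q ≠ 0 := by rw [hq]; exact Rat.num_ne_zero.2 hρ0
  have hqs : ρ = (q : ℚ) / s := by
    rw [hq, hs]
    push_cast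
    exact (Rat.num_div_den ρ).symm
  have hcop : IsCoprime q s := by
    rw [hq, hs, Int.isCoprime_iff_gcd_eq_one]
    exact ρ.reduced
  have htt : ((t.num : ℤ) : ℚ) / ((t.den : ℤ) : ℚ) = t := by
    push_cast
    exact Rat.num_div_den t
  -- the relation
  have hrel : Rel A B k a b (t.num, (t.den : ℤ)) q s := by
    have eA := hom_eval A (2 * k) h.hA t.num (t.den : ℤ) hn0'
    have eB := hom_eval B (3 * k) h.hB t.num (t.den : ℤ) hn0'
    rw [htt] at eA eB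
    have p1 : (((t.den : ℤ)) : ℚ) ^ (2 * k) = ((t.den : ℚ) ^ k) ^ 2 := by
      push_cast; rw [← pow_mul]; congr 1; ring
    have p2 : (((t.den : ℤ)) : ℚ) ^ (3 * k) = ((t.den : ℚ) ^ k) ^ 3 := by
      push_cast; rw [← pow_mul]; congr 1; ring
    rw [p1] at eA
    rw [p2] at eB
    constructor
    · have : ((a * s ^ 2 : ℤ) : ℚ) = ((q ^ 2 * hom A (2 * k) t.num (t.den : ℤ) : ℤ) : ℚ) := by
        push_cast
        rw [eA, ha, hδρ, hqs]
        field_simp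
      exact_mod_cast this
    · have : ((b * s ^ 3 : ℤ) : ℚ) = ((q ^ 3 * hom B (3 * k) t.num (t.den : ℤ) : ℤ) : ℚ) := by
        push_cast
        rw [eB, hb, hδρ, hqs]
        field_simp
      exact_mod_cast this
  have hden0 : ((t.den : ℤ)) ≠ 0 := by exact_mod_cast t.den_nz
  have hcopt : IsCoprime t.num (t.den : ℤ) := by
    rw [Int.isCoprime_iff_gcd_eq_one]
    exact t.reduced
  have hd := hrel.disc h hden0
  have hne : Ds L e c (t.num, (t.den : ℤ)) ≠ 0 := by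
    intro h0
    rw [h0, mul_zero] at hd
    exact mul_ne_zero hmin.1 (pow_ne_zero _ hs0) hd
  refine ⟨⟨hcopt, ne_of_Ds h.he hne⟩, ?_, hq0, ?_, hrel⟩
  · -- the denominator
    have c1 : s ^ 2 ∣ hom A (2 * k) t.num (t.den : ℤ) := by
      have : s ^ 2 ∣ q ^ 2 * hom A (2 * k) t.num (t.den : ℤ) := ⟨a, by rw [← hrel.h1]; ring⟩
      exact (hcop.symm.pow).dvd_of_dvd_mul_left this
    have c2 : s ^ 3 ∣ hom B (3 * k) t.num (t.den : ℤ) := by
      have : s ^ 3 ∣ q ^ 3 * hom B (3 * k) t.num (t.den : ℤ) := ⟨b, by rw [← hrel.h2]; ring⟩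
      exact (hcop.symm.pow).dvd_of_dvd_mul_left this
    exact hM _ _ hcopt s ((dvd_pow_self s two_ne_zero).trans c1)
      ((dvd_pow_self s three_ne_zero).trans c2)
  · -- squarefree
    rw [Int.squarefree_natAbs.symm]
    rw [Nat.squarefree_iff_prime_squarefree]
    intro p hp hpp
    have hpq : ((p : ℤ)) ^ 2 ∣ q := by
      rw [← Int.dvd_natAbs]
      have : p * p ∣ q.natAbs := hpp
      have h3 : ((p * p : ℕ) : ℤ) ∣ (q.natAbs : ℤ) := Int.natCast_dvd_natCast.2 this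
      push_cast at h3 ⊢
      rw [pow_two]
      exact h3
    obtain ⟨q', hq'⟩ := hpq
    have hps : IsCoprime ((p : ℤ)) s := by
      refine hcop.of_isCoprime_of_dvd_left ?_
      rw [hq']
      exact (dvd_pow_self _ two_ne_zero).mul_right _
    have d1 : (p : ℤ) ^ 4 ∣ a := by
      have : (p : ℤ) ^ 4 ∣ a * s ^ 2 := by
        rw [hrel.h1, hq']
        exact ⟨q' ^ 2 * hom A (2 * k) t.num (t.den : ℤ), by ring⟩
      exact (hps.pow).dvd_of_dvd_mul_right this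
    have d2 : (p : ℤ) ^ 6 ∣ b := by
      have : (p : ℤ) ^ 6 ∣ b * s ^ 3 := by
        rw [hrel.h2, hq']
        exact ⟨q' ^ 3 * hom B (3 * k) t.num (t.den : ℤ), by ring⟩
      exact (hps.pow).dvd_of_dvd_mul_right this
    have d3 := prim_of_minS a b hmin (p : ℤ) d1 d2
    have d4 : (2 : ℤ) ≤ p := by exact_mod_cast hp.two_le
    rw [abs_of_nonneg (by positivity)] at d3
    push_cast at d3
    omega

/-- the parameters of a minimal model of a member -/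
theorem par1 (h : RF A B k L e c) {k' : ℕ} (hk' : k = 2 * k') {M : ℕ} (hM : GcdM A B k M)
    {a b : ℤ} (hmin : MinS a b)
    (hmem : Mem A B a b) : ∃ (P : ℤ × ℤ) (s : ℤ), 0 < P.2 ∧ Pt L P ∧ 0 < s ∧ s ∣ M ∧
      Rel A B k a b P 1 s := by
  obtain ⟨t, u, hu, ha, hb⟩ := hmem
  have ha' : (a : ℚ) = (u ^ 2) ^ 2 * (A.map (Int.castRingHom ℚ)).eval t := by rw [ha]; ring
  have hb' : (b : ℚ) = (u ^ 2) ^ 3 * (B.map (Int.castRingHom ℚ)).eval t := by rw [hb]; ring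
  obtain ⟨h1, h2, h3, h4, h5⟩ := par h hM hmin (pow_ne_zero 2 hu) ha' hb'
  have hρ : u ^ 2 / (t.den : ℚ) ^ k = (u / (t.den : ℚ) ^ k') ^ 2 := by
    rw [div_pow, ← pow_mul, hk']
    congr 2
    ring
  have hnum : (u ^ 2 / (t.den : ℚ) ^ k).num = (u / (t.den : ℚ) ^ k').num ^ 2 := by
    rw [hρ, Rat.num_pow]
  have hone : (u ^ 2 / (t.den : ℚ) ^ k).num = 1 := by
    rw [hnum] at h4 ⊢
    have h6 : IsUnit (u / (t.den : ℚ) ^ k').num := h4 _ (by rw [pow_two])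
    rcases Int.isUnit_iff.1 h6 with h7 | h7 <;> rw [h7] <;> norm_num
  rw [hone] at h5
  refine ⟨(t.num, (t.den : ℤ)), _, ?_, h1, ?_, h2, h5⟩
  · simp only
    exact_mod_cast t.den_pos
  · exact_mod_cast Rat.den_pos _

/-- the parameters of a minimal model of a twist -/
theorem par2 (h : RF A B k L e c) {M : ℕ} (hM : GcdM A B k M) {a b : ℤ} (hmin : MinS a b)
    (hmem : TwMem A B a b) : ∃ (P : ℤ × ℤ) (q s : ℤ), 0 < P.2 ∧ Pt L P ∧ 0 < s ∧ s ∣ M ∧ q ≠ 0 ∧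
      Squarefree q.natAbs ∧ Rel A B k a b P q s := by
  obtain ⟨t, δ, hδ, ha, hb⟩ := hmem
  obtain ⟨h1, h2, h3, h4, h5⟩ := par h hM hmin hδ ha hb
  refine ⟨(t.num, (t.den : ℤ)), _, _, ?_, h1, ?_, h2, h3, ?_, h5⟩
  · simp only
    exact_mod_cast t.den_pos
  · exact_mod_cast Rat.den_pos _
  · exact Int.squarefree_natAbs.2 h4

end Pool.Agent.Y679.Kf
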