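import Pool.Agent.Y679.Kf.Wt

/-! Good points: all the values have about the same size, which is the size of the height; the
number of the other points (helper679). -/

set_option autoImplicit false

namespace Pool.Agent.Y679.Kf

open Finset
open Pool.Agent.TH867.SQ (lr lr_nonneg lr_mul lr_dvd)
open Pool.Agent.TH867.QF (Fm ev va rs Rs Rs_pos rs_dvd Pt U U_pos ht ht_pos va_pos va_le cross1 cross2)

theorem lr_rd (n : ℕ) : lr n = Real.log (rd n) := by
  unfold lr rd
  push_cast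
  rw [Real.log_prod]
  intro p hp
  exact_mod_cast (Nat.prime_of_mem_primeFactors hp).ne_zero

variable {r : ℕ}

/-- the sum over the values of the sums of the logarithms of their primes -/
noncomputable def sr (L : Fm r) (P : ℤ × ℤ) : ℝ := ∑ i, lr (va L P i)

theorem sr_nonneg (L : Fm r) (P : ℤ × ℤ) : 0 ≤ sr L P := Finset.sum_nonneg fun i _ => lr_nonneg _

theorem lr_prod_le {ι : Type*} (s : Finset ι) (f : ι → ℕ) (hf : ∀ i ∈ s, f i ≠ 0) :
    lr (∏ i ∈ s, f i) ≤ ∑ i ∈ s, lr (f i) := by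
  classical
  induction s using Finset.induction_on with
  | empty => simp [lr]
  | insert i s hi ih =>
    rw [Finset.prod_insert hi, Finset.sum_insert hi]
    have h1 := ih fun j hj => hf j (mem_insert_of_mem hj)
    have h2 : ∏ j ∈ s, f j ≠ 0 := Finset.prod_ne_zero_iff.2 fun j hj => hf j (mem_insert_of_mem hj)
    have h3 := lr_mul (f i) (∏ j ∈ s, f j) (hf i (mem_insert_self i s)) h2
    linarith

theorem lr_Vp_le {L : Fm r} {P : ℤ × ℤ} (h : Pt L P) : lr (Vp L P) ≤ sr L P :=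
  lr_prod_le _ _ fun i _ => (va_pos h i).ne'

theorem sr_le {L : Fm r} {P : ℤ × ℤ} (h : Pt L P) :
    sr L P ≤ lr (Vp L P) + r * Real.log (Rs L) := by
  classical
  have hRs : 0 ≤ Real.log (Rs L) := Real.log_natCast_nonneg _
  have h1 : ∀ i, lr (va L P i) ≤ ∑ p ∈ (va L P i).primeFactors.filter (fun p => ¬ p ∣ Rs L),
      Real.log (p : ℝ) + Real.log (Rs L) := by
    intro i
    unfold lr
    rw [← Finset.sum_filter_add_sum_filter_not _ (fun p => p ∣ Rs L), add_comm]
    refine add_le_add le_rfl ?_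
    have h2 : ∑ p ∈ (va L P i).primeFactors.filter (fun p => p ∣ Rs L), Real.log (p : ℝ) =
        Real.log ((∏ p ∈ (va L P i).primeFactors.filter (fun p => p ∣ Rs L), p : ℕ) : ℝ) := by
      push_cast
      rw [Real.log_prod]
      intro p hp
      exact_mod_cast (Nat.prime_of_mem_primeFactors (mem_filter.1 hp).1).ne_zero
    rw [h2]
    refine Real.log_le_log ?_ ?_
    · exact_mod_cast Finset.prod_pos fun p hp =>
        (Nat.prime_of_mem_primeFactors (mem_filter.1 hp).1).pos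
    · exact_mod_cast Nat.le_of_dvd (Rs_pos L) (Finset.prod_primes_dvd _
        (fun p hp => (Nat.prime_of_mem_primeFactors (mem_filter.1 hp).1).prime)
        fun p hp => (mem_filter.1 hp).2)
  have h2 : sr L P ≤ ∑ i, ∑ p ∈ (va L P i).primeFactors.filter (fun p => ¬ p ∣ Rs L),
      Real.log (p : ℝ) + r * Real.log (Rs L) := by
    unfold sr
    refine (Finset.sum_le_sum fun i _ => h1 i).trans (le_of_eq ?_)
    rw [Finset.sum_add_distrib, Finset.sum_const, Finset.card_univ, Fintype.card_fin, nsmul_eq_mul]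
  refine h2.trans (add_le_add ?_ le_rfl)
  rw [← Finset.sum_biUnion]
  · unfold lr
    refine Finset.sum_le_sum_of_subset_of_nonneg ?_ fun p _ _ => Real.log_natCast_nonneg _
    intro p hp
    obtain ⟨i, -, hi⟩ := mem_biUnion.1 hp
    have h3 := (mem_filter.1 hi).1
    refine Nat.mem_primeFactors.2 ⟨Nat.prime_of_mem_primeFactors h3, ?_, Vp_ne h⟩
    exact (Nat.dvd_of_mem_primeFactors h3).trans (Finset.dvd_prod_of_mem _ (mem_univ i))
  · intro i _ j _ hij
    rw [Function.onFun, Finset.disjoint_left]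
    intro p hi hj
    have k1 := Nat.dvd_of_mem_primeFactors (mem_filter.1 hi).1
    have k2 := Nat.dvd_of_mem_primeFactors (mem_filter.1 hj).1
    have k3 := Pool.Agent.TH867.QF.dvd_rs h (i := i) (j := j) (d := (p : ℤ)) (Int.natCast_dvd.2 k1)
      (Int.natCast_dvd.2 k2)
    exact (mem_filter.1 hi).2 ((Int.natCast_dvd.1 k3).trans (rs_dvd L hij))

/-- good points -/
def Gd (L : Fm r) (δ : ℝ) (P : ℤ × ℤ) : Prop :=
  Real.log (ht P) ≤ (1 / (r : ℝ) + δ) * sr L P ∧
    ∀ i, (1 / (r : ℝ) - δ) * sr L P ≤ Real.log (va L P i)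

theorem near_count {d : ℕ} (L : Fm (d + 3)) (i : Fin (d + 3)) {Z H : ℝ} (hZ : 1 ≤ Z) (hH : 1 ≤ H)
    (F : Finset (ℤ × ℤ)) (hF : ∀ P ∈ F, (va L P i : ℝ) ≤ Z ∧ (ht P : ℝ) ≤ H) :
    (F.card : ℝ) ≤ 9 * U L * (Z * H) := by
  classical
  obtain ⟨j, hij⟩ : ∃ j : Fin (d + 3), i ≠ j := by
    by_contra hcon
    push Not at hcon
    have e1 := hcon ⟨0, by omega⟩
    have e2 := hcon ⟨1, by omega⟩
    rw [e1] at e2
    exact absurd (Fin.mk.inj_iff.1 e2) (by norm_num)
  have hU : (1 : ℝ) ≤ U L := by exact_mod_cast U_pos L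
  obtain ⟨z, hz⟩ : ∃ z : ℕ, z = ⌊Z⌋₊ := ⟨_, rfl⟩
  obtain ⟨w, hw⟩ : ∃ w : ℕ, w = ⌊U L * H⌋₊ := ⟨_, rfl⟩
  have hzZ : (z : ℝ) ≤ Z := by rw [hz]; exact Nat.floor_le (by linarith)
  have hwW : (w : ℝ) ≤ U L * H := by rw [hw]; exact Nat.floor_le (by positivity)
  have hmem : ∀ P ∈ F, (ev L P i, ev L P j) ∈
      (Finset.Icc (-(z : ℤ)) z) ×ˢ (Finset.Icc (-(w : ℤ)) w) := by
    intro P hP
    obtain ⟨h1, h2⟩ := hF P hP
    have h3 : va L P i ≤ z := by rw [hz]; exact Nat.le_floor h1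
    have h4 : (va L P j : ℝ) ≤ U L * H := by
      have h5 : (va L P j : ℝ) ≤ U L * ht P := by exact_mod_cast va_le L P j
      exact h5.trans (mul_le_mul_of_nonneg_left h2 (by positivity))
    have h5 : va L P j ≤ w := by rw [hw]; exact Nat.le_floor h4
    unfold va at h3 h5
    rw [mem_product, mem_Icc, mem_Icc]
    simp only
    omega
  have hinj : Set.InjOn (fun P => (ev L P i, ev L P j)) (F : Set (ℤ × ℤ)) := by
    intro P _ Q _ hPQ
    simp only [Prod.mk.injEq] at hPQ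
    obtain ⟨h1, h2⟩ := hPQ
    have hr := L.res i j hij
    have a1 := cross1 L P i j
    have a2 := cross1 L Q i j
    have b1 := cross2 L P i j
    have b2 := cross2 L Q i j
    rw [h1, h2, ← a2] at a1
    rw [h1, h2, ← b2] at b1
    exact Prod.ext (mul_left_cancel₀ hr a1) (mul_left_cancel₀ hr b1)
  have hcard : F.card ≤ (2 * z + 1) * (2 * w + 1) := by
    refine (Finset.card_le_card_of_injOn _ hmem hinj).trans (le_of_eq ?_)
    rw [card_product, Int.card_Icc, Int.card_Icc]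
    congr 1 <;> omega
  have h1 : (F.card : ℝ) ≤ (2 * z + 1) * (2 * w + 1) := by exact_mod_cast hcard
  have hUH : 1 ≤ U L * H := one_le_mul_of_one_le_of_one_le hU hH
  calc (F.card : ℝ) ≤ (2 * z + 1) * (2 * w + 1) := h1
    _ ≤ (3 * Z) * (3 * (U L * H)) := by
      refine mul_le_mul (by linarith) (by linarith) (by positivity) (by positivity)
    _ = _ := by ring

/-- **the number of the points that are not good** -/
theorem bad_count {d : ℕ} (L : Fm (d + 3)) (δ : ℝ) (hδ : 0 < δ) : ∃ ν : ℝ, 0 < ν ∧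
    ν < 2 / ((d : ℝ) + 3) ∧ ∃ C : ℝ, 0 < C ∧ ∀ X : ℝ, 1 ≤ X →
    ∀ F : Finset (ℤ × ℤ), (∀ P ∈ F, Pt L P ∧ sr L P ≤ Real.log X ∧ ¬ Gd L δ P) →
    (F.card : ℝ) ≤ C * X ^ (2 / ((d : ℝ) + 3) - ν) := by
  classical
  have hd3 : (0 : ℝ) < (d : ℝ) + 3 := by positivity
  have hcast : (((d + 3 : ℕ)) : ℝ) = (d : ℝ) + 3 := by push_cast; ring
  obtain ⟨C1, hC1, htot⟩ := line_tot L
  obtain ⟨ν2, hν2, -, C2, hC2, htall⟩ := line_tall L (δ / 4) (by positivity)
  obtain ⟨θ, hθ⟩ : ∃ θ : ℝ, θ = 1 / ((d : ℝ) + 3) := ⟨_, rfl⟩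
  have hθ0 : 0 < θ := by rw [hθ]; positivity
  have hθ2 : 2 / ((d : ℝ) + 3) = 2 * θ := by rw [hθ]; ring
  obtain ⟨η, hη⟩ : ∃ η : ℝ, η = δ / (2 * (θ + δ)) := ⟨_, rfl⟩
  have hη0 : 0 < η := by rw [hη]; positivity
  have hη1 : η ≤ 1 / 2 := by
    rw [hη, div_le_div_iff₀ (by positivity) (by norm_num)]
    linarith
  have hηe : (θ + δ) * (1 - η) = θ + δ / 2 := by
    rw [hη]; field_simp; ring
  have hU : (1 : ℝ) ≤ U L := by exact_mod_cast U_pos L
  obtain ⟨ν, hν⟩ : ∃ ν : ℝ, ν = min (min (2 * θ * η) ν2) (min (3 * δ / 4) θ) := ⟨_, rfl⟩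
  have hν0 : 0 < ν := by
    rw [hν]
    exact lt_min (lt_min (by positivity) hν2) (lt_min (by positivity) hθ0)
  have n1 : ν ≤ 2 * θ * η := by rw [hν]; exact (min_le_left _ _).trans (min_le_left _ _)
  have n2 : ν ≤ ν2 := by rw [hν]; exact (min_le_left _ _).trans (min_le_right _ _)
  have n3 : ν ≤ 3 * δ / 4 := by rw [hν]; exact (min_le_right _ _).trans (min_le_left _ _)
  have n4 : ν ≤ θ := by rw [hν]; exact (min_le_right _ _).trans (min_le_right _ _)
  refine ⟨ν, hν0, by rw [hθ2]; linarith, C1 + C2 + (d + 3 : ℝ) * (9 * U L), by positivity,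
    fun X hX F hF => ?_⟩
  have hX0 : 0 < X := by linarith
  have hlX : 0 ≤ Real.log X := Real.log_nonneg hX
  -- the three sets
  obtain ⟨F1, hF1⟩ : ∃ F1 : Finset (ℤ × ℤ), F1 = F.filter fun P => sr L P ≤ (1 - η) * Real.log X :=
    ⟨_, rfl⟩
  obtain ⟨F2, hF2⟩ : ∃ F2 : Finset (ℤ × ℤ), F2 = F.filter fun P =>
    (1 / ((d : ℝ) + 3) + δ / 4) * Real.log X ≤ Real.log (ht P) := ⟨_, rfl⟩
  obtain ⟨F3, hF3⟩ : ∃ F3 : Fin (d + 3) → Finset (ℤ × ℤ), F3 = fun i => F.filter fun P =>
    (va L P i : ℝ) ≤ max 1 (X ^ (θ - δ)) ∧ (ht P : ℝ) ≤ X ^ (θ + δ / 4) ∧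
      0 < θ - δ := ⟨_, rfl⟩
  have hcov : F ⊆ (F1 ∪ F2) ∪ (Finset.univ : Finset (Fin (d + 3))).biUnion F3 := by
    intro P hP
    obtain ⟨g1, g2, g3⟩ := hF P hP
    rw [mem_union, mem_union]
    by_cases c1 : sr L P ≤ (1 - η) * Real.log X
    · left; left
      rw [hF1]
      exact mem_filter.2 ⟨hP, c1⟩
    · by_cases c2 : (1 / ((d : ℝ) + 3) + δ / 4) * Real.log X ≤ Real.log (ht P)
      · left; right
        rw [hF2]
        exact mem_filter.2 ⟨hP, c2⟩
      · right
        rw [mem_biUnion]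
        push Not at c1 c2
        unfold Gd at g3
        rw [not_and_or] at g3
        have hpos : (0 : ℝ) < ht P := by exact_mod_cast ht_pos g1
        rcases g3 with g4 | g4
        · exfalso
          rw [hcast, ← hθ] at g4
          rw [← hθ] at c2
          push Not at g4
          have h1 : (θ + δ) * ((1 - η) * Real.log X) ≤ (θ + δ) * sr L P :=
            mul_le_mul_of_nonneg_left c1.le (by positivity)
          rw [← mul_assoc, hηe] at h1
          nlinarith
        · push Not at g4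
          obtain ⟨i, hi⟩ := g4
          rw [hcast, ← hθ] at hi
          refine ⟨i, mem_univ i, ?_⟩
          have hva : (0 : ℝ) < va L P i := by exact_mod_cast va_pos g1 i
          have hva0 : 0 ≤ Real.log (va L P i) := Real.log_natCast_nonneg _
          have hsr := sr_nonneg L P
          have hpos2 : 0 < θ - δ := by
            by_contra hcon
            push Not at hcon
            have : (θ - δ) * sr L P ≤ 0 := mul_nonpos_of_nonpos_of_nonneg hcon hsr
            linarith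
          have h1 : Real.log (va L P i) ≤ (θ - δ) * Real.log X :=
            hi.le.trans (mul_le_mul_of_nonneg_left g2 hpos2.le)
          have h2 : (va L P i : ℝ) ≤ X ^ (θ - δ) := by
            rw [← Real.log_le_log_iff hva (by positivity), Real.log_rpow hX0]
            exact h1
          have h3 : (ht P : ℝ) ≤ X ^ (θ + δ / 4) := by
            rw [← Real.log_le_log_iff hpos (by positivity), Real.log_rpow hX0]
            rw [← hθ] at c2
            exact c2.le
          rw [hF3]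
          exact mem_filter.2 ⟨hP, h2.trans (le_max_right _ _), h3, hpos2⟩
  have e1 : (F1.card : ℝ) ≤ C1 * X ^ (2 / ((d : ℝ) + 3) - ν) := by
    have h1 := htot (X ^ (1 - η)) (Real.one_le_rpow hX (by linarith)) F1 (fun P hP => by
      rw [hF1] at hP
      obtain ⟨hP1, hP2⟩ := mem_filter.1 hP
      refine ⟨(hF P hP1).1, ?_⟩
      rw [Real.log_rpow hX0]
      exact hP2)
    refine h1.trans (mul_le_mul_of_nonneg_left ?_ hC1.le)
    rw [← Real.rpow_mul hX0.le]
    refine Real.rpow_le_rpow_of_exponent_le hX ?_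
    rw [hθ2]
    nlinarith
  have e2 : (F2.card : ℝ) ≤ C2 * X ^ (2 / ((d : ℝ) + 3) - ν) := by
    have h1 := htall X hX F2 (fun P hP => by
      rw [hF2] at hP
      obtain ⟨hP1, hP2⟩ := mem_filter.1 hP
      exact ⟨(hF P hP1).1, (hF P hP1).2.1, hP2⟩)
    refine h1.trans (mul_le_mul_of_nonneg_left ?_ hC2.le)
    exact Real.rpow_le_rpow_of_exponent_le hX (by linarith)
  have e3 : ∀ i, ((F3 i).card : ℝ) ≤ 9 * U L * X ^ (2 / ((d : ℝ) + 3) - ν) := by
    intro i
    by_cases hpos : 0 < θ - δ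
    · have hmx : max 1 (X ^ (θ - δ)) = X ^ (θ - δ) := max_eq_right (Real.one_le_rpow hX hpos.le)
      have h1 := near_count L i (Z := X ^ (θ - δ)) (H := X ^ (θ + δ / 4))
        (Real.one_le_rpow hX hpos.le) (Real.one_le_rpow hX (by positivity)) (F3 i) (fun P hP => by
          rw [hF3] at hP
          obtain ⟨-, hP2, hP3, -⟩ := mem_filter.1 hP
          rw [hmx] at hP2
          exact ⟨hP2, hP3⟩)
      refine h1.trans (mul_le_mul_of_nonneg_left ?_ (by positivity))
      rw [← Real.rpow_add hX0]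
      refine Real.rpow_le_rpow_of_exponent_le hX ?_
      rw [hθ2]
      linarith
    · have : F3 i = ∅ := by
        rw [Finset.eq_empty_iff_forall_notMem]
        intro P hP
        rw [hF3] at hP
        exact hpos (mem_filter.1 hP).2.2.2
      rw [this, card_empty, Nat.cast_zero]
      positivity
  have h1 : F.card ≤ (F1.card + F2.card) + ∑ i, (F3 i).card := by
    refine (card_le_card hcov).trans ((card_union_le _ _).trans ?_)
    exact Nat.add_le_add (card_union_le _ _) card_biUnion_le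
  have h2 : (F.card : ℝ) ≤ (F1.card + F2.card) + ∑ i, ((F3 i).card : ℝ) := by exact_mod_cast h1
  have h3 : ∑ i, ((F3 i).card : ℝ) ≤ ((d : ℝ) + 3) * (9 * U L * X ^ (2 / ((d : ℝ) + 3) - ν)) := by
    refine (Finset.sum_le_sum fun i _ => e3 i).trans (le_of_eq ?_)
    rw [sum_const, card_univ, Fintype.card_fin, nsmul_eq_mul, hcast]
  calc (F.card : ℝ) ≤ (F1.card + F2.card) + ∑ i, ((F3 i).card : ℝ) := h2
    _ ≤ (C1 * X ^ (2 / ((d : ℝ) + 3) - ν) + C2 * X ^ (2 / ((d : ℝ) + 3) - ν)) +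
        ((d : ℝ) + 3) * (9 * U L * X ^ (2 / ((d : ℝ) + 3) - ν)) := by linarith
    _ = _ := by ring

end Pool.Agent.Y679.Kf
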