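import Pool.Agent.Y679.AA
import Pool.Agent.TH867.SQ.Line

/-! Points of the projective line over the rationals, of all heights, and `q` linear forms: the
number of the points of tall height, from the number of the triples (helper679). -/

set_option autoImplicit false

namespace Pool.Agent.Y679.Kf

open Finset
open Pool.Agent.TH867.SR (Tr rr rr_sum N3 log_prod_primes)
open Pool.Agent.TH867.SQ (lr Srt srt_int rr_eq lr_nonneg lr_dvd lr_mul lr_rs)
open Pool.Agent.TH867.QF (Fm ev va rs Rs Rs_pos rs_dvd Pt va_pos lin3 dt proportional U U_pos ht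
  ht_le ht_pos cross1 cross2)

/-- a bound for the number of triples -/
def TriB (β C α : ℝ) : Prop :=
  ∀ X : ℝ, 1 ≤ X → ∀ F : Finset (Fin 3 → ℕ), (∀ t ∈ F, Tr t ∧
    rr t 0 + rr t 1 + rr t 2 ≤ Real.log X ∧ β * Real.log X ≤ Real.log (t 2)) →
    (F.card : ℝ) ≤ C * X ^ α

open Pool.Agent.Results.MP_1ea25c_nt.AlmostAllTriples in
theorem tri_all : ∃ C : ℝ, 0 < C ∧ TriB 0 C (2 / 3) := by
  obtain ⟨κ, hκ, hlim, -⟩ := Pool.Agent.Y911.AA.main
  have h1 := hlim.eventually (gt_mem_nhds (show κ < κ + 1 by linarith))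
  obtain ⟨X0, hX0⟩ := Filter.eventually_atTop.1 h1
  obtain ⟨Y, hY⟩ : ∃ Y : ℝ, Y = max X0 1 := ⟨_, rfl⟩
  have hY1 : 1 ≤ Y := by rw [hY]; exact le_max_right _ _
  refine ⟨(κ + 1) + (triples Y).ncard, by positivity, fun X hX F hF => ?_⟩
  have hX0' : 0 < X := by linarith
  have e0 : ∀ t ∈ F, toT (t 0, t 1) = t := by
    intro t ht
    have hT := (hF t ht).1
    have h2 : t 2 = t 0 + t 1 := hT.add.symm
    funext i
    fin_cases i
    · rfl
    · rfl
    · exact h2.symm
  have hinj : Set.InjOn (fun t : Fin 3 → ℕ => (t 0, t 1)) (F : Set (Fin 3 → ℕ)) := by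
    intro s hs t ht hst
    rw [← e0 s hs, ← e0 t ht]
    simp only at hst
    rw [hst]
  have hfin : (triples X).Finite := Pool.Agent.Y911.AA.triples_finite' X
  have h3 : ((F : Set (Fin 3 → ℕ)).ncard) ≤ (triples X).ncard := by
    refine Set.ncard_le_ncard_of_injOn (fun t : Fin 3 → ℕ => (t 0, t 1)) ?_ hinj hfin
    intro t ht
    have ht' : t ∈ F := ht
    obtain ⟨hT, h4, -⟩ := hF t ht'
    have h2 : t 2 = t 0 + t 1 := hT.add.symm
    have hr : Real.log (rad3 (t 0, t 1)) = rr t 0 + rr t 1 + rr t 2 := by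
      rw [← rr_sum hT, ← log_prod_primes fun q hq => Nat.prime_of_mem_primeFactors hq]
      have : rad3 (t 0, t 1) = ∏ q ∈ (N3 t).primeFactors, q := by
        show radical (t 0 * t 1 * (t 0 + t 1)) = _
        rw [← h2]
        rfl
      rw [this]
    have hp0 : (0 : ℝ) < rad3 (t 0, t 1) := by exact_mod_cast rad3_pos _
    have hpX : (rad3 (t 0, t 1) : ℝ) ≤ X := by
      rw [← Real.log_le_log_iff hp0 hX0', hr]
      exact h4
    exact ⟨hT.pos, hT.le, hT.cop, hpX⟩
  rw [Set.ncard_coe_finset] at h3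
  have h3' : (F.card : ℝ) ≤ ((triples X).ncard : ℝ) := by exact_mod_cast h3
  have hXp : 1 ≤ X ^ ((2 : ℝ) / 3) := Real.one_le_rpow hX (by norm_num)
  rcases le_total Y X with h | h
  · have h5 := hX0 X ((le_max_left _ _).trans (hY ▸ h))
    rw [div_lt_iff₀ (by positivity)] at h5
    have h6 : (0 : ℝ) ≤ ((triples Y).ncard : ℝ) * X ^ ((2 : ℝ) / 3) := by positivity
    rw [add_mul]
    linarith
  · have h5 : (triples X).ncard ≤ (triples Y).ncard := by
      refine Set.ncard_le_ncard ?_ (Pool.Agent.Y911.AA.triples_finite' Y)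
      rintro p ⟨a1, a2, a3, a4⟩
      exact ⟨a1, a2, a3, a4.trans h⟩
    have h5' : ((triples X).ncard : ℝ) ≤ ((triples Y).ncard : ℝ) := by exact_mod_cast h5
    have h6 : ((triples Y).ncard : ℝ) ≤ ((triples Y).ncard : ℝ) * X ^ ((2 : ℝ) / 3) :=
      le_mul_of_one_le_right (Nat.cast_nonneg _) hXp
    rw [add_mul]
    have h7 : 0 ≤ (κ + 1) * X ^ ((2 : ℝ) / 3) := by positivity
    linarith

theorem tri_tall (δ : ℝ) (hδ : 0 < δ) : ∃ ν : ℝ, 0 < ν ∧ ∃ C : ℝ, 0 < C ∧
    TriB (1 / 3 + δ) C (2 / 3 - ν) := by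
  obtain ⟨ν, hν, C, hC, h⟩ := Pool.Agent.Y679.Cur.stmtAA δ hδ
  exact ⟨ν, hν, C, hC, h⟩

/-- pairs of coprime integers -/
theorem z_tri {β C α : ℝ} (hβ : 0 ≤ β) (hC : 0 < C) (h : TriB β C α) : ∀ X : ℝ, 1 ≤ X →
    ∀ F : Finset (ℤ × ℤ), (∀ w ∈ F, IsCoprime w.1 w.2 ∧ w.1 ≠ 0 ∧ w.2 ≠ 0 ∧ w.1 + w.2 ≠ 0 ∧
      lr w.1.natAbs + lr w.2.natAbs + lr (w.1 + w.2).natAbs ≤ Real.log X ∧
      β * Real.log X ≤ Real.log ((max w.1.natAbs w.2.natAbs : ℕ) : ℝ)) →
    (F.card : ℝ) ≤ 36 * (C * X ^ α) := by
  classical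
  intro X hX F hF
  have hex : ∀ w ∈ F, ∃ t, Srt t w.1.natAbs w.2.natAbs (w.1 + w.2).natAbs := by
    intro w hw
    obtain ⟨h1, h2, h3, h4, -, -⟩ := hF w hw
    exact srt_int h1 h2 h3 h4
  choose! f hf using hex
  have h1 := h X hX (F.image f) (fun t ht => by
    obtain ⟨w, hw, rfl⟩ := Finset.mem_image.1 ht
    obtain ⟨-, g2, -, -, h5, h6⟩ := hF w hw
    have hs := hf w hw
    refine ⟨hs.tr, ?_, ?_⟩
    · rw [rr_eq, rr_eq, rr_eq, hs.sm]
      exact h5
    · refine h6.trans ?_
      have hle : ∀ i : Fin 3, f w i ≤ f w 2 := by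
        intro i
        have a1 := hs.tr.add
        fin_cases i
        · show f w 0 ≤ f w 2
          omega
        · show f w 1 ≤ f w 2
          omega
        · exact le_rfl
      have hm : max w.1.natAbs w.2.natAbs ≤ f w 2 := by
        refine max_le ?_ ?_
        · obtain ⟨i, hi⟩ := hs.ix
          rw [hi]; exact hle i
        · obtain ⟨i, hi⟩ := hs.iy
          rw [hi]; exact hle i
      have hp : 0 < max w.1.natAbs w.2.natAbs := lt_max_of_lt_left (Int.natAbs_pos.2 g2)
      exact Real.log_le_log (by exact_mod_cast hp) (by exact_mod_cast hm))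
  have h2 : F.card ≤ 36 * (F.image f).card := by
    refine Finset.card_le_mul_card_image F 36 fun t ht => ?_
    have hsub : F.filter (fun w => f w = t) ⊆
        (Finset.univ : Finset (Fin 3 × Fin 3 × Bool × Bool)).image (fun c =>
          ((if c.2.2.1 then (t c.1 : ℤ) else -(t c.1 : ℤ)),
            (if c.2.2.2 then (t c.2.1 : ℤ) else -(t c.2.1 : ℤ)))) := by
      intro w hw
      obtain ⟨g1, g2⟩ := Finset.mem_filter.1 hw
      have hs := hf w g1
      rw [g2] at hs
      obtain ⟨i, hi⟩ := hs.ix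
      obtain ⟨j, hj⟩ := hs.iy
      have e1 : ∃ b : Bool, w.1 = if b then (t i : ℤ) else -(t i : ℤ) := by
        rcases Int.natAbs_eq w.1 with h | h
        · exact ⟨true, by rw [if_pos rfl, ← hi]; exact h⟩
        · exact ⟨false, by rw [if_neg (by decide), ← hi]; exact h⟩
      have e2 : ∃ b : Bool, w.2 = if b then (t j : ℤ) else -(t j : ℤ) := by
        rcases Int.natAbs_eq w.2 with h | h
        · exact ⟨true, by rw [if_pos rfl, ← hj]; exact h⟩
        · exact ⟨false, by rw [if_neg (by decide), ← hj]; exact h⟩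
      obtain ⟨b, hb⟩ := e1
      obtain ⟨b', hb'⟩ := e2
      rw [Finset.mem_image]
      exact ⟨(i, j, b, b'), Finset.mem_univ _, Prod.ext hb.symm hb'.symm⟩
    refine (Finset.card_le_card hsub).trans (Finset.card_image_le.trans (le_of_eq ?_))
    rw [Finset.card_univ]
    rfl
  have h3 : (F.card : ℝ) ≤ 36 * ((F.image f).card : ℝ) := by exact_mod_cast h2
  linarith

variable {r : ℕ}

theorem dvd_rs_mul {L : Fm r} {P : ℤ × ℤ} (h : Pt L P) {i j : Fin r} {d κ : ℤ}
    (hi : d ∣ κ * ev L P i) (hj : d ∣ κ * ev L P j) : d ∣ κ * rs L i j := by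
  have h1 : d ∣ κ * (rs L i j * P.1) := by
    rw [cross1]
    have : κ * (L.w j * ev L P i - L.w i * ev L P j) =
        L.w j * (κ * ev L P i) - L.w i * (κ * ev L P j) := by ring
    rw [this]
    exact dvd_sub (hi.mul_left _) (hj.mul_left _)
  have h2 : d ∣ κ * (rs L i j * P.2) := by
    rw [cross2]
    have : κ * (L.u i * ev L P j - L.u j * ev L P i) =
        L.u i * (κ * ev L P j) - L.u j * (κ * ev L P i) := by ring
    rw [this]
    exact dvd_sub (hj.mul_left _) (hi.mul_left _)
  obtain ⟨x, y, hxy⟩ := h.cop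
  have e : κ * rs L i j = x * (κ * (rs L i j * P.1)) + y * (κ * (rs L i j * P.2)) := by
    linear_combination (- κ * rs L i j) * hxy
  rw [e]
  exact dvd_add (h1.mul_left _) (h2.mul_left _)

/-- the loss of height -/
noncomputable def KL (L : Fm r) : ℝ := Real.log (U L) + 3 * Real.log (Rs L)

/-- **three forms among `r`** -/
theorem three_tri (L : Fm r) {β C α : ℝ} (hβ : 0 ≤ β) (hC : 0 < C) (h : TriB β C α) :
    ∀ X : ℝ, 1 ≤ X → ∀ F : Finset (ℤ × ℤ), (∀ P ∈ F, Pt L P ∧ (∃ a b c : Fin r, a ≠ b ∧ b ≠ c ∧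
      a ≠ c ∧ lr (va L P a) + lr (va L P b) + lr (va L P c) ≤ Real.log X) ∧
      β * (Real.log X + 3 * Real.log (Rs L)) ≤ max 0 (Real.log (ht P) - KL L)) →
    (F.card : ℝ) ≤ ((r : ℝ) ^ 3 + 1) * (2 * (36 * (C * (X * (Rs L : ℝ) ^ 3) ^ α))) := by
  classical
  obtain ⟨R, hR⟩ : ∃ R : ℝ, R = (Rs L : ℝ) := ⟨_, rfl⟩
  have hR1 : 1 ≤ R := by rw [hR]; exact_mod_cast Rs_pos L
  have hR0 : 0 < R := by linarith
  rw [← hR]
  intro X hX F hF
  have hX0 : 0 < X := by linarith
  -- the sets for given indices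
  obtain ⟨G, hG⟩ : ∃ G : Fin r × Fin r × Fin r → Finset (ℤ × ℤ), G = fun σ => F.filter fun P =>
      σ.1 ≠ σ.2.1 ∧ σ.2.1 ≠ σ.2.2 ∧ σ.1 ≠ σ.2.2 ∧
      lr (va L P σ.1) + lr (va L P σ.2.1) + lr (va L P σ.2.2) ≤ Real.log X := ⟨_, rfl⟩
  have hcov : F ⊆ (Finset.univ : Finset (Fin r × Fin r × Fin r)).biUnion G := by
    intro P hP
    obtain ⟨-, ⟨a, b, c, h1, h2, h3, h4⟩, -⟩ := hF P hP
    rw [Finset.mem_biUnion]
    refine ⟨(a, b, c), Finset.mem_univ _, ?_⟩
    rw [hG]
    exact Finset.mem_filter.2 ⟨hP, h1, h2, h3, h4⟩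
  have hGc : ∀ σ : Fin r × Fin r × Fin r, ((G σ).card : ℝ) ≤
      2 * (36 * (C * (X * R ^ 3) ^ α)) := by
    rintro ⟨a, b, c⟩
    by_cases hab : a ≠ b
    swap
    · have : G (a, b, c) = ∅ := by
        rw [Finset.eq_empty_iff_forall_notMem]
        intro P hP
        rw [hG] at hP
        exact hab (Finset.mem_filter.1 hP).2.1
      rw [this, Finset.card_empty, Nat.cast_zero]
      positivity
    by_cases hbc : b ≠ c
    swap
    · have : G (a, b, c) = ∅ := by
        rw [Finset.eq_empty_iff_forall_notMem]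
        intro P hP
        rw [hG] at hP
        exact hbc (Finset.mem_filter.1 hP).2.2.1
      rw [this, Finset.card_empty, Nat.cast_zero]
      positivity
    by_cases hac : a ≠ c
    swap
    · have : G (a, b, c) = ∅ := by
        rw [Finset.eq_empty_iff_forall_notMem]
        intro P hP
        rw [hG] at hP
        exact hac (Finset.mem_filter.1 hP).2.2.2.1
      rw [this, Finset.card_empty, Nat.cast_zero]
      positivity
    have hmem : ∀ P ∈ G (a, b, c), Pt L P ∧
        lr (va L P a) + lr (va L P b) + lr (va L P c) ≤ Real.log X ∧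
        β * (Real.log X + 3 * Real.log R) ≤ max 0 (Real.log (ht P) - KL L) := by
      intro P hP
      rw [hG] at hP
      obtain ⟨g1, -, -, -, g2⟩ := Finset.mem_filter.1 hP
      have := (hF P g1).2.2
      exact ⟨(hF P g1).1, g2, this⟩
    -- the pair of a point
    obtain ⟨al, hal⟩ : ∃ al : ℤ × ℤ → ℤ, al = fun P => rs L c a * ev L P b := ⟨_, rfl⟩
    obtain ⟨be, hbe⟩ : ∃ be : ℤ × ℤ → ℤ, be = fun P => rs L a b * ev L P c := ⟨_, rfl⟩
    have hsum : ∀ P, al P + be P = - rs L b c * ev L P a := by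
      intro P
      rw [hal, hbe]
      exact lin3 L P a b c
    have rca : rs L c a ≠ 0 := L.res c a hac.symm
    have rab : rs L a b ≠ 0 := L.res a b hab
    have rbc : rs L b c ≠ 0 := L.res b c hbc
    obtain ⟨φ, hφ⟩ : ∃ φ : ℤ × ℤ → ℤ × ℤ, φ = fun P =>
        (al P / (Int.gcd (al P) (be P) : ℤ), be P / (Int.gcd (al P) (be P) : ℤ)) := ⟨_, rfl⟩
    have hal0 : ∀ P, Pt L P → al P ≠ 0 := by
      intro P hP
      rw [hal]
      exact mul_ne_zero rca (hP.ne b)
    have hbe0 : ∀ P, Pt L P → be P ≠ 0 := by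
      intro P hP
      rw [hbe]
      exact mul_ne_zero rab (hP.ne c)
    have hab0 : ∀ P, Pt L P → al P + be P ≠ 0 := by
      intro P hP
      rw [hsum]
      exact mul_ne_zero (neg_ne_zero.2 rbc) (hP.ne a)
    have hg0 : ∀ P, Pt L P → (Int.gcd (al P) (be P) : ℤ) ≠ 0 := by
      intro P hP h0
      have h1 : Int.gcd (al P) (be P) = 0 := by exact_mod_cast h0
      exact hal0 P hP (Int.gcd_eq_zero_iff.1 h1).1
    have hmul1 : ∀ P, (φ P).1 * (Int.gcd (al P) (be P) : ℤ) = al P := by
      intro P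
      rw [hφ]
      exact Int.ediv_mul_cancel (Int.gcd_dvd_left _ _)
    have hmul2 : ∀ P, (φ P).2 * (Int.gcd (al P) (be P) : ℤ) = be P := by
      intro P
      rw [hφ]
      exact Int.ediv_mul_cancel (Int.gcd_dvd_right _ _)
    have hlog1 : Real.log (X * R ^ 3) = Real.log X + 3 * Real.log R := by
      rw [Real.log_mul hX0.ne' (by positivity), Real.log_pow]
      push_cast
      ring
    -- the common divisor is bounded
    have hgR : ∀ P, Pt L P → ((Int.gcd (al P) (be P) : ℕ) : ℝ) ≤ R ^ 3 := by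
      intro P hP
      obtain ⟨d, hd⟩ : ∃ d : ℤ, d = (Int.gcd (al P) (be P) : ℤ) := ⟨_, rfl⟩
      have d1 : d ∣ al P := by rw [hd]; exact Int.gcd_dvd_left _ _
      have d2 : d ∣ be P := by rw [hd]; exact Int.gcd_dvd_right _ _
      have d3 : d ∣ (rs L c a * rs L a b) * ev L P b := by
        rw [hal] at d1
        have : (rs L c a * rs L a b) * ev L P b = rs L a b * (rs L c a * ev L P b) := by ring
        rw [this]
        exact d1.mul_left _
      have d4 : d ∣ (rs L c a * rs L a b) * ev L P c := by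
        rw [hbe] at d2
        have : (rs L c a * rs L a b) * ev L P c = rs L c a * (rs L a b * ev L P c) := by ring
        rw [this]
        exact d2.mul_left _
      have d5 := dvd_rs_mul hP d3 d4
      have d6 : d.natAbs ∣ (rs L c a).natAbs * (rs L a b).natAbs * (rs L b c).natAbs := by
        have := Int.natAbs_dvd_natAbs.2 d5
        rwa [Int.natAbs_mul, Int.natAbs_mul] at this
      have d7 : (rs L c a).natAbs * (rs L a b).natAbs * (rs L b c).natAbs ∣
          Rs L * Rs L * Rs L :=
        mul_dvd_mul (mul_dvd_mul (rs_dvd L hac.symm) (rs_dvd L hab)) (rs_dvd L hbc)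
      have d8 : d.natAbs ≤ Rs L * Rs L * Rs L := by
        refine Nat.le_of_dvd ?_ (d6.trans d7)
        have := Rs_pos L
        positivity
      have d9 : d.natAbs = Int.gcd (al P) (be P) := by rw [hd]; exact Int.natAbs_natCast _
      rw [d9] at d8
      rw [hR]
      calc ((Int.gcd (al P) (be P) : ℕ) : ℝ) ≤ ((Rs L * Rs L * Rs L : ℕ) : ℝ) := by
            exact_mod_cast d8
        _ = (Rs L : ℝ) ^ 3 := by push_cast; ring
    have key := z_tri hβ hC h (X * R ^ 3) (one_le_mul_of_one_le_of_one_le hX (one_le_pow₀ hR1))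
      ((G (a, b, c)).image φ) (fun w hw => by
      obtain ⟨P, hP, rfl⟩ := Finset.mem_image.1 hw
      obtain ⟨hpt, h4, h5⟩ := hmem P hP
      have a0 := hal0 P hpt
      have b0 := hbe0 P hpt
      have s0 := hab0 P hpt
      have g0 := hg0 P hpt
      have m1 := hmul1 P
      have m2 := hmul2 P
      have d1 : (φ P).1 ∣ al P := ⟨_, m1.symm⟩
      have d2 : (φ P).2 ∣ be P := ⟨_, m2.symm⟩
      have d3 : (φ P).1 + (φ P).2 ∣ al P + be P :=
        ⟨(Int.gcd (al P) (be P) : ℤ), by rw [add_mul, m1, m2]⟩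
      have e1 : lr (φ P).1.natAbs ≤ lr (va L P b) + Real.log R := by
        refine (lr_dvd (Int.natAbs_ne_zero.2 a0) (Int.natAbs_dvd_natAbs.2 d1)).trans ?_
        rw [hal]
        simp only
        rw [Int.natAbs_mul]
        refine (lr_mul _ _ (Int.natAbs_ne_zero.2 rca) (va_pos hpt b).ne').trans ?_
        have := lr_rs L hac.symm
        rw [← hR] at this
        unfold va
        linarith
      have e2 : lr (φ P).2.natAbs ≤ lr (va L P c) + Real.log R := by
        refine (lr_dvd (Int.natAbs_ne_zero.2 b0) (Int.natAbs_dvd_natAbs.2 d2)).trans ?_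
        rw [hbe]
        simp only
        rw [Int.natAbs_mul]
        refine (lr_mul _ _ (Int.natAbs_ne_zero.2 rab) (va_pos hpt c).ne').trans ?_
        have := lr_rs L hab
        rw [← hR] at this
        unfold va
        linarith
      have e3 : lr ((φ P).1 + (φ P).2).natAbs ≤ lr (va L P a) + Real.log R := by
        refine (lr_dvd (Int.natAbs_ne_zero.2 s0) (Int.natAbs_dvd_natAbs.2 d3)).trans ?_
        rw [hsum, Int.natAbs_mul, Int.natAbs_neg]
        refine (lr_mul _ _ (Int.natAbs_ne_zero.2 rbc) (va_pos hpt a).ne').trans ?_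
        have := lr_rs L hbc
        rw [← hR] at this
        unfold va
        linarith
      have n1 : (φ P).1 ≠ 0 := by
        intro h0
        rw [h0, zero_mul] at m1
        exact a0 m1.symm
      have n2 : (φ P).2 ≠ 0 := by
        intro h0
        rw [h0, zero_mul] at m2
        exact b0 m2.symm
      refine ⟨?_, n1, n2, ?_, ?_, ?_⟩
      · rw [Int.isCoprime_iff_gcd_eq_one, hφ]
        simp only
        refine Int.gcd_ediv_gcd_ediv_gcd ?_
        have h1 : Int.gcd (al P) (be P) ≠ 0 := by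
          intro h0
          exact g0 (by rw [h0]; rfl)
        exact Nat.pos_of_ne_zero h1
      · intro h0
        apply s0
        have e4 : al P + be P = ((φ P).1 + (φ P).2) * (Int.gcd (al P) (be P) : ℤ) := by
          rw [add_mul, m1, m2]
        rw [e4, h0, zero_mul]
      · rw [hlog1]
        linarith
      · rw [hlog1]
        refine h5.trans ?_
        obtain ⟨m, hm⟩ : ∃ m : ℕ, m = max (φ P).1.natAbs (φ P).2.natAbs := ⟨_, rfl⟩
        have hm1 : 1 ≤ m := by
          rw [hm]; exact le_max_of_le_left (Int.natAbs_pos.2 n1)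
        rw [← hm]
        have hm1' : (1 : ℝ) ≤ m := by exact_mod_cast hm1
        refine max_le (Real.log_nonneg hm1') ?_
        -- the height
        obtain ⟨g, hg⟩ : ∃ g : ℕ, g = Int.gcd (al P) (be P) := ⟨_, rfl⟩
        have hgn : g ≠ 0 := by
          intro h0
          exact g0 (by rw [← hg, h0]; rfl)
        have k1 : va L P b ≤ m * g := by
          have : (al P).natAbs = (φ P).1.natAbs * g := by
            rw [← m1, Int.natAbs_mul, ← hg, Int.natAbs_natCast]
          have k2 : va L P b ≤ (al P).natAbs := by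
            rw [hal]
            simp only
            rw [Int.natAbs_mul]
            exact Nat.le_mul_of_pos_left _ (Int.natAbs_pos.2 rca)
          rw [this] at k2
          refine k2.trans (Nat.mul_le_mul_right _ ?_)
          rw [hm]; exact le_max_left _ _
        have k2 : va L P c ≤ m * g := by
          have : (be P).natAbs = (φ P).2.natAbs * g := by
            rw [← m2, Int.natAbs_mul, ← hg, Int.natAbs_natCast]
          have k2 : va L P c ≤ (be P).natAbs := by
            rw [hbe]
            simp only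
            rw [Int.natAbs_mul]
            exact Nat.le_mul_of_pos_left _ (Int.natAbs_pos.2 rab)
          rw [this] at k2
          refine k2.trans (Nat.mul_le_mul_right _ ?_)
          rw [hm]; exact le_max_right _ _
        have k3 : ht P ≤ U L * (m * g) :=
          (ht_le L P hbc).trans (Nat.mul_le_mul_left _ (max_le k1 k2))
        have k4 : (ht P : ℝ) ≤ (U L : ℝ) * (m * R ^ 3) := by
          have k5 : (ht P : ℝ) ≤ (U L : ℝ) * ((m : ℝ) * g) := by exact_mod_cast k3
          refine k5.trans ?_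
          have k6 : (g : ℝ) ≤ R ^ 3 := by rw [hg]; exact hgR P hpt
          have k7 : (0 : ℝ) ≤ U L := Nat.cast_nonneg _
          gcongr
        have hht : (0 : ℝ) < ht P := by exact_mod_cast ht_pos hpt
        have hU : (0 : ℝ) < U L := by exact_mod_cast U_pos L
        have k8 := Real.log_le_log hht k4
        rw [Real.log_mul hU.ne' (by positivity), Real.log_mul (by positivity) (by positivity),
          Real.log_pow] at k8
        unfold KL
        rw [← hR]
        push_cast at k8
        linarith)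
    have hfib : (G (a, b, c)).card ≤ 2 * ((G (a, b, c)).image φ).card := by
      refine Finset.card_le_mul_card_image _ 2 fun w hw => ?_
      rcases ((G (a, b, c)).filter fun P => φ P = w).eq_empty_or_nonempty with he | ⟨P0, hP0⟩
      · rw [he, Finset.card_empty]
        exact Nat.zero_le _
      · obtain ⟨q1, q2⟩ := Finset.mem_filter.1 hP0
        have hpt0 := (hmem P0 q1).1
        have hsub : ((G (a, b, c)).filter fun P => φ P = w) ⊆ {P0, (-P0.1, -P0.2)} := by
          intro P hP
          obtain ⟨q3, q4⟩ := Finset.mem_filter.1 hP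
          have hpt := (hmem P q3).1
          have hd : dt P0 P = 0 := by
            have m1 := hmul1 P
            have m2 := hmul2 P
            have n1 := hmul1 P0
            have n2 := hmul2 P0
            rw [q4] at m1 m2
            rw [q2] at n1 n2
            have e1 : al P0 * be P = al P * be P0 := by
              calc al P0 * be P = (w.1 * (Int.gcd (al P0) (be P0) : ℤ)) *
                    (w.2 * (Int.gcd (al P) (be P) : ℤ)) := by rw [n1, m2]
                _ = (w.1 * (Int.gcd (al P) (be P) : ℤ)) *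
                    (w.2 * (Int.gcd (al P0) (be P0) : ℤ)) := by ring
                _ = al P * be P0 := by rw [m1, n2]
            rw [hal, hbe] at e1
            simp only at e1
            have e2 : (rs L c a * rs L a b * rs L b c) * dt P0 P = 0 := by
              have e3 : rs L b c * dt P0 P =
                  ev L P0 b * ev L P c - ev L P b * ev L P0 c := by
                unfold rs dt ev; ring
              calc (rs L c a * rs L a b * rs L b c) * dt P0 P =
                  (rs L c a * rs L a b) * (rs L b c * dt P0 P) := by ring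
                _ = (rs L c a * ev L P0 b) * (rs L a b * ev L P c) -
                    (rs L c a * ev L P b) * (rs L a b * ev L P0 c) := by rw [e3]; ring
                _ = 0 := by rw [e1, sub_self]
            rcases mul_eq_zero.1 e2 with h0 | h0
            · exact absurd h0 (mul_ne_zero (mul_ne_zero rca rab) rbc)
            · exact h0
          obtain ⟨s, hs, s1, s2⟩ := proportional hpt0.cop hpt.cop hd
          rw [Finset.mem_insert, Finset.mem_singleton]
          rcases hs with rfl | rfl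
          · left
            exact Prod.ext (by rw [s1, one_mul]) (by rw [s2, one_mul])
          · right
            exact Prod.ext (by rw [s1]; ring) (by rw [s2]; ring)
        exact (Finset.card_le_card hsub).trans Finset.card_le_two
    have hfib' : ((G (a, b, c)).card : ℝ) ≤ 2 * (((G (a, b, c)).image φ).card : ℝ) := by
      exact_mod_cast hfib
    linarith
  have h1 : (F.card : ℝ) ≤ ∑ σ : Fin r × Fin r × Fin r, ((G σ).card : ℝ) := by
    exact_mod_cast (Finset.card_le_card hcov).trans Finset.card_biUnion_le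
  have h2 := h1.trans (Finset.sum_le_sum fun σ _ => hGc σ)
  rw [Finset.sum_const, Finset.card_univ, Fintype.card_prod, Fintype.card_prod, Fintype.card_fin,
    nsmul_eq_mul] at h2
  have h3 : 0 ≤ 2 * (36 * (C * (X * R ^ 3) ^ α)) := by positivity
  have h4 : ((r * (r * r) : ℕ) : ℝ) ≤ (r : ℝ) ^ 3 + 1 := by
    push_cast
    linarith [show (r : ℝ) * (r * r) = (r : ℝ) ^ 3 by ring]
  exact h2.trans (mul_le_mul_of_nonneg_right h4 h3)

/-- three light indices -/
theorem three_light {d : ℕ} (f : Fin (d + 3) → ℝ) :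
    ∃ a b c : Fin (d + 3), a ≠ b ∧ b ≠ c ∧ a ≠ c ∧
      f a + f b + f c ≤ 3 / ((d : ℝ) + 3) * ∑ j, f j := by
  obtain ⟨a, ha⟩ := Pool.Agent.TH867.SQ.one_light f
  obtain ⟨b, c, h1, h2, h3, h4⟩ := Pool.Agent.TH867.SQ.two_light f a
  refine ⟨a, b, c, h1, h2, h3, ?_⟩
  have hd0 : (0 : ℝ) ≤ d := Nat.cast_nonneg d
  have hd3 : (0 : ℝ) < (d : ℝ) + 3 := by positivity
  have hd2 : (0 : ℝ) < (d : ℝ) + 2 := by positivity
  obtain ⟨S, hS⟩ : ∃ S, S = ∑ j, f j := ⟨_, rfl⟩
  rw [← hS] at ha h4 ⊢
  have e1 : f a + f b + f c ≤ (d : ℝ) / (d + 2) * f a + 2 / ((d : ℝ) + 2) * S := by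
    have e2 : 2 / ((d : ℝ) + 2) * (S - f a) = 2 / ((d : ℝ) + 2) * S - 2 / ((d : ℝ) + 2) * f a := by
      ring
    have e3 : (d : ℝ) / (d + 2) * f a = f a - 2 / ((d : ℝ) + 2) * f a := by
      field_simp
      ring
    linarith
  have e4 : (d : ℝ) / (d + 2) * f a ≤ (d : ℝ) / (d + 2) * (S / ((d : ℝ) + 3)) :=
    mul_le_mul_of_nonneg_left ha (by positivity)
  refine e1.trans ((add_le_add_left e4 _).trans (le_of_eq ?_))
  field_simp
  ring

end Pool.Agent.Y679.Kf
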