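import Pool.Agent.Y679.Kf.Lin

/-! Points of the projective line over the rationals, of all heights, and `q` linear forms: all
points, and the points of tall height (helper679). -/

set_option autoImplicit false

namespace Pool.Agent.Y679.Kf

open Finset
open Pool.Agent.TH867.SQ (lr)
open Pool.Agent.TH867.QF (Fm va Rs Rs_pos Pt U U_pos ht ht_pos)

/-- **all points** -/
theorem line_tot {d : ℕ} (L : Fm (d + 3)) : ∃ C : ℝ, 0 < C ∧ ∀ X : ℝ, 1 ≤ X →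
    ∀ F : Finset (ℤ × ℤ), (∀ P ∈ F, Pt L P ∧ ∑ i, lr (va L P i) ≤ Real.log X) →
    (F.card : ℝ) ≤ C * X ^ (2 / ((d : ℝ) + 3)) := by
  obtain ⟨C, hC, h⟩ := tri_all
  have hd3 : (0 : ℝ) < (d : ℝ) + 3 := by positivity
  obtain ⟨R, hR⟩ : ∃ R : ℝ, R = (Rs L : ℝ) := ⟨_, rfl⟩
  have hR1 : 1 ≤ R := by rw [hR]; exact_mod_cast Rs_pos L
  have hR0 : 0 < R := by linarith
  refine ⟨(((d + 3 : ℕ) : ℝ) ^ 3 + 1) * (2 * (36 * (C * (R ^ 3) ^ ((2 : ℝ) / 3)))), by positivity,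
    fun X hX F hF => ?_⟩
  have hX0 : 0 < X := by linarith
  have h1 := three_tri L le_rfl hC h (X ^ (3 / ((d : ℝ) + 3)))
    (Real.one_le_rpow hX (by positivity)) F (fun P hP => by
      obtain ⟨g1, g2⟩ := hF P hP
      refine ⟨g1, ?_, ?_⟩
      · obtain ⟨a, b, c, k1, k2, k3, k4⟩ := three_light (fun i => lr (va L P i))
        refine ⟨a, b, c, k1, k2, k3, k4.trans ?_⟩
        rw [Real.log_rpow hX0]
        exact mul_le_mul_of_nonneg_left g2 (by positivity)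
      · rw [zero_mul]
        exact le_max_left _ _)
  refine h1.trans (le_of_eq ?_)
  rw [← hR, Real.mul_rpow (by positivity) (by positivity), ← Real.rpow_mul hX0.le]
  have e : 3 / ((d : ℝ) + 3) * (2 / 3) = 2 / ((d : ℝ) + 3) := by field_simp
  rw [e]
  ring

/-- **points of tall height** -/
theorem line_tall {d : ℕ} (L : Fm (d + 3)) (δ : ℝ) (hδ : 0 < δ) : ∃ ν : ℝ, 0 < ν ∧
    ν ≤ 2 / ((d : ℝ) + 3) ∧ ∃ C : ℝ, 0 < C ∧ ∀ X : ℝ, 1 ≤ X →
    ∀ F : Finset (ℤ × ℤ), (∀ P ∈ F, Pt L P ∧ ∑ i, lr (va L P i) ≤ Real.log X ∧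
      (1 / ((d : ℝ) + 3) + δ) * Real.log X ≤ Real.log (ht P)) →
    (F.card : ℝ) ≤ C * X ^ (2 / ((d : ℝ) + 3) - ν) := by
  have hd3 : (0 : ℝ) < (d : ℝ) + 3 := by positivity
  obtain ⟨Ct, hCt, htot⟩ := line_tot L
  obtain ⟨δ1, hδ1⟩ : ∃ δ1 : ℝ, δ1 = δ * ((d : ℝ) + 3) / 6 := ⟨_, rfl⟩
  have hδ10 : 0 < δ1 := by rw [hδ1]; positivity
  obtain ⟨ν1, hν1, C1, hC1, h⟩ := tri_tall δ1 hδ10
  obtain ⟨R, hR⟩ : ∃ R : ℝ, R = (Rs L : ℝ) := ⟨_, rfl⟩
  have hR1 : 1 ≤ R := by rw [hR]; exact_mod_cast Rs_pos L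
  have hR0 : 0 < R := by linarith
  obtain ⟨β, hβ⟩ : ∃ β : ℝ, β = 1 / 3 + δ1 := ⟨_, rfl⟩
  have hβ0 : 0 ≤ β := by rw [hβ]; positivity
  obtain ⟨T, hT⟩ : ∃ T : ℝ, T = (3 * β * Real.log R + |KL L|) * (2 / δ) := ⟨_, rfl⟩
  have hT0 : 0 ≤ T := by
    rw [hT]
    have := Real.log_nonneg hR1
    positivity
  obtain ⟨ν, hν⟩ : ∃ ν : ℝ, ν = min (3 * ν1 / ((d : ℝ) + 3)) (2 / ((d : ℝ) + 3)) := ⟨_, rfl⟩
  have hν0 : 0 < ν := by
    rw [hν]
    exact lt_min (by positivity) (by positivity)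
  have hν2 : ν ≤ 2 / ((d : ℝ) + 3) := by rw [hν]; exact min_le_right _ _
  have hν3 : ν ≤ 3 * ν1 / ((d : ℝ) + 3) := by rw [hν]; exact min_le_left _ _
  obtain ⟨K1, hK1⟩ : ∃ K1 : ℝ, K1 = (((d + 3 : ℕ) : ℝ) ^ 3 + 1) *
    (2 * (36 * (C1 * (R ^ 3) ^ ((2 : ℝ) / 3 - ν1)))) := ⟨_, rfl⟩
  have hK10 : 0 < K1 := by rw [hK1]; positivity
  refine ⟨ν, hν0, hν2, K1 + Ct * Real.exp T ^ (2 / ((d : ℝ) + 3)), by positivity,
    fun X hX F hF => ?_⟩
  have hX0 : 0 < X := by linarith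
  have hXν : 1 ≤ X ^ (2 / ((d : ℝ) + 3) - ν) := Real.one_le_rpow hX (by linarith)
  rcases le_total (Real.log X) T with hcase | hcase
  · -- small `X`
    have hXe : X ≤ Real.exp T := by
      rw [← Real.log_le_iff_le_exp hX0]
      exact hcase
    have h1 := htot X hX F fun P hP => ⟨(hF P hP).1, (hF P hP).2.1⟩
    have h2 : X ^ (2 / ((d : ℝ) + 3)) ≤ Real.exp T ^ (2 / ((d : ℝ) + 3)) :=
      Real.rpow_le_rpow hX0.le hXe (by positivity)
    have h3 : Ct * X ^ (2 / ((d : ℝ) + 3)) ≤ Ct * Real.exp T ^ (2 / ((d : ℝ) + 3)) :=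
      mul_le_mul_of_nonneg_left h2 hCt.le
    have h4 : (F.card : ℝ) ≤ K1 + Ct * Real.exp T ^ (2 / ((d : ℝ) + 3)) := by linarith
    exact h4.trans (le_mul_of_one_le_right (by positivity) hXν)
  · have h1 := three_tri L hβ0 hC1 (by rw [hβ]; exact h) (X ^ (3 / ((d : ℝ) + 3)))
      (Real.one_le_rpow hX (by positivity)) F (fun P hP => by
        obtain ⟨g1, g2, g3⟩ := hF P hP
        refine ⟨g1, ?_, ?_⟩
        · obtain ⟨a, b, c, k1, k2, k3, k4⟩ := three_light (fun i => lr (va L P i))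
          refine ⟨a, b, c, k1, k2, k3, k4.trans ?_⟩
          rw [Real.log_rpow hX0]
          exact mul_le_mul_of_nonneg_left g2 (by positivity)
        · refine le_trans ?_ (le_max_right _ _)
          rw [← hR, Real.log_rpow hX0]
          have e1 : β * (3 / ((d : ℝ) + 3) * Real.log X + 3 * Real.log R) =
              (1 / ((d : ℝ) + 3) + δ / 2) * Real.log X + 3 * β * Real.log R := by
            rw [hβ, hδ1]
            field_simp
            ring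
          rw [e1]
          have e2 : (3 * β * Real.log R + |KL L|) ≤ δ / 2 * Real.log X := by
            rw [hT, mul_div_assoc', div_le_iff₀ hδ] at hcase
            linarith
          have e3 := le_abs_self (KL L)
          nlinarith)
    have h2 : (X ^ (3 / ((d : ℝ) + 3)) * R ^ 3) ^ ((2 : ℝ) / 3 - ν1) ≤
        X ^ (2 / ((d : ℝ) + 3) - ν) * (R ^ 3) ^ ((2 : ℝ) / 3 - ν1) := by
      rw [Real.mul_rpow (by positivity) (by positivity), ← Real.rpow_mul hX0.le]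
      refine mul_le_mul_of_nonneg_right ?_ (by positivity)
      refine Real.rpow_le_rpow_of_exponent_le hX ?_
      have e : 3 / ((d : ℝ) + 3) * (2 / 3 - ν1) = 2 / ((d : ℝ) + 3) - 3 * ν1 / ((d : ℝ) + 3) := by
        field_simp
      rw [e]
      linarith
    rw [← hR] at h1
    have h3 : (F.card : ℝ) ≤ K1 * X ^ (2 / ((d : ℝ) + 3) - ν) := by
      refine h1.trans ?_
      rw [hK1]
      have h4 : C1 * (X ^ (3 / ((d : ℝ) + 3)) * R ^ 3) ^ ((2 : ℝ) / 3 - ν1) ≤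
          C1 * (X ^ (2 / ((d : ℝ) + 3) - ν) * (R ^ 3) ^ ((2 : ℝ) / 3 - ν1)) :=
        mul_le_mul_of_nonneg_left h2 hC1.le
      have h5 : (0 : ℝ) ≤ ((d + 3 : ℕ) : ℝ) ^ 3 + 1 := by positivity
      calc (((d + 3 : ℕ) : ℝ) ^ 3 + 1) * (2 * (36 * (C1 *
            (X ^ (3 / ((d : ℝ) + 3)) * R ^ 3) ^ ((2 : ℝ) / 3 - ν1)))) ≤
          (((d + 3 : ℕ) : ℝ) ^ 3 + 1) * (2 * (36 * (C1 *
            (X ^ (2 / ((d : ℝ) + 3) - ν) * (R ^ 3) ^ ((2 : ℝ) / 3 - ν1))))) := by gcongr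
        _ = _ := by ring
    refine h3.trans (mul_le_mul_of_nonneg_right ?_ (by positivity))
    have : 0 ≤ Ct * Real.exp T ^ (2 / ((d : ℝ) + 3)) := by positivity
    linarith

/-! ### Weighted sums -/

/-- the number of the members up to `Y` is at most `C Y ^ α`; the sum of `R ^ (-β)` over the members
with `R ≥ Y`, for `β > α` -/
theorem wsum {ι : Type*} (R : ι → ℝ) {C α β : ℝ} (hC : 0 ≤ C) (hαβ : α < β) (hα : 0 ≤ α)
    (F : Finset ι) (hR : ∀ i ∈ F, 1 ≤ R i)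
    (hcount : ∀ Y : ℝ, 1 ≤ Y → ((F.filter fun i => R i ≤ Y).card : ℝ) ≤ C * Y ^ α)
    (Y : ℝ) (hY : 1 ≤ Y) :
    ∑ i ∈ F.filter (fun i => Y ≤ R i), R i ^ (-β) ≤
      C * 2 ^ α * (1 - 2 ^ (α - β))⁻¹ * Y ^ (α - β) := by
  classical
  have hY0 : 0 < Y := by linarith
  have hq0 : (0 : ℝ) ≤ 2 ^ (α - β) := by positivity
  have hq1 : (2 : ℝ) ^ (α - β) < 1 := Real.rpow_lt_one_of_one_lt_of_neg (by norm_num) (by linarith)
  -- the blocks
  obtain ⟨J, hJ⟩ : ∃ J : ℕ, ∀ i ∈ F, R i < Y * 2 ^ J := by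
    obtain ⟨M, hM⟩ : ∃ M : ℝ, ∀ i ∈ F, R i ≤ M := by
      refine ⟨∑ i ∈ F, R i, fun i hi => ?_⟩
      exact Finset.single_le_sum (f := R) (fun j hj => by linarith [hR j hj]) hi
    obtain ⟨J, hJ⟩ := pow_unbounded_of_one_lt M (by norm_num : (1 : ℝ) < 2)
    refine ⟨J, fun i hi => ?_⟩
    have : (2 : ℝ) ^ J ≤ Y * 2 ^ J := le_mul_of_one_le_left (by positivity) hY
    linarith [hM i hi]
  have hcov : ∀ i ∈ F, Y ≤ R i → ∃ j ∈ range J, Y * 2 ^ j ≤ R i ∧ R i ≤ Y * 2 ^ (j + 1) := by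
    intro i h1 h2
    have hex : ∃ j : ℕ, R i < Y * 2 ^ j := ⟨J, hJ i h1⟩
    obtain ⟨j, hj, hmin⟩ : ∃ j : ℕ, R i < Y * 2 ^ j ∧ ∀ k < j, Y * 2 ^ k ≤ R i := by
      refine ⟨Nat.find hex, Nat.find_spec hex, fun k hk => ?_⟩
      exact not_lt.1 (Nat.find_min hex hk)
    have hj0 : j ≠ 0 := by
      rintro rfl
      rw [pow_zero, mul_one] at hj
      linarith
    obtain ⟨k, rfl⟩ : ∃ k, j = k + 1 := ⟨j - 1, by omega⟩
    have hkJ : k < J := by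
      by_contra hcon
      have h3 := hmin J (by omega)
      exact absurd (hJ i h1) (not_lt.2 h3)
    exact ⟨k, mem_range.2 hkJ, hmin k (by omega), hj.le⟩
  have h1 : ∑ i ∈ F.filter (fun i => Y ≤ R i), R i ^ (-β) ≤
      ∑ j ∈ range J, ∑ i ∈ F.filter (fun i => Y * 2 ^ j ≤ R i ∧ R i ≤ Y * 2 ^ (j + 1)),
        R i ^ (-β) := by
    have hf : ∀ i ∈ F, 0 ≤ R i ^ (-β) := fun i hi => by
      have := hR i hi
      positivity
    have e1 : ∑ j ∈ range J, ∑ i ∈ F.filter (fun i => Y * 2 ^ j ≤ R i ∧ R i ≤ Y * 2 ^ (j + 1)),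
        R i ^ (-β) = ∑ i ∈ F, ∑ j ∈ range J,
          if Y * 2 ^ j ≤ R i ∧ R i ≤ Y * 2 ^ (j + 1) then R i ^ (-β) else 0 := by
      rw [Finset.sum_comm]
      exact Finset.sum_congr rfl fun j _ => Finset.sum_filter _ _
    rw [e1, Finset.sum_filter]
    refine Finset.sum_le_sum fun i hi => ?_
    split_ifs with hYi
    · obtain ⟨j, hj, hj2⟩ := hcov i hi hYi
      refine le_trans ?_ (Finset.single_le_sum (f := fun j =>
        if Y * 2 ^ j ≤ R i ∧ R i ≤ Y * 2 ^ (j + 1) then R i ^ (-β) else 0) (fun k _ => ?_) hj)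
      · rw [if_pos hj2]
      · split_ifs
        · exact hf i hi
        · exact le_rfl
    · refine Finset.sum_nonneg fun k _ => ?_
      split_ifs
      · exact hf i hi
      · exact le_rfl
  refine h1.trans ?_
  have h2 : ∀ j ∈ range J, ∑ i ∈ F.filter (fun i => Y * 2 ^ j ≤ R i ∧ R i ≤ Y * 2 ^ (j + 1)),
      R i ^ (-β) ≤ C * 2 ^ α * Y ^ (α - β) * (2 ^ (α - β)) ^ j := by
    intro j _
    have hY1 : 1 ≤ Y * 2 ^ (j + 1) := one_le_mul_of_one_le_of_one_le hY (one_le_pow₀ (by norm_num))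
    have h3 := hcount (Y * 2 ^ (j + 1)) hY1
    have h4 : ∑ i ∈ F.filter (fun i => Y * 2 ^ j ≤ R i ∧ R i ≤ Y * 2 ^ (j + 1)), R i ^ (-β) ≤
        ∑ _i ∈ F.filter (fun i => Y * 2 ^ j ≤ R i ∧ R i ≤ Y * 2 ^ (j + 1)),
          (Y * 2 ^ j) ^ (-β) := by
      refine Finset.sum_le_sum fun i hi => ?_
      obtain ⟨-, k1, -⟩ := mem_filter.1 hi
      exact Real.rpow_le_rpow_of_nonpos (by positivity) k1 (by linarith)
    have h5 : ((F.filter (fun i => Y * 2 ^ j ≤ R i ∧ R i ≤ Y * 2 ^ (j + 1))).card : ℝ) ≤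
        ((F.filter fun i => R i ≤ Y * 2 ^ (j + 1)).card : ℝ) := by
      exact_mod_cast Finset.card_le_card fun i hi => by
        obtain ⟨k1, -, k2⟩ := mem_filter.1 hi
        exact mem_filter.2 ⟨k1, k2⟩
    rw [Finset.sum_const, nsmul_eq_mul] at h4
    refine h4.trans ((mul_le_mul_of_nonneg_right (h5.trans h3) (by positivity)).trans
      (le_of_eq ?_))
    have e1 : (Y * 2 ^ (j + 1)) ^ α = Y ^ α * (2 ^ α * (2 ^ α) ^ j) := by
      rw [Real.mul_rpow hY0.le (by positivity), ← Real.rpow_natCast 2 (j + 1),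
        ← Real.rpow_mul (by norm_num), mul_comm ((j + 1 : ℕ) : ℝ) α, Real.rpow_mul (by norm_num),
        Real.rpow_natCast, pow_succ]
      ring
    have e2 : (Y * 2 ^ j) ^ (-β) = Y ^ (-β) * (2 ^ (-β)) ^ j := by
      rw [Real.mul_rpow hY0.le (by positivity), ← Real.rpow_natCast 2 j,
        ← Real.rpow_mul (by norm_num), mul_comm (j : ℝ) (-β), Real.rpow_mul (by norm_num),
        Real.rpow_natCast]
    have e3 : Y ^ (α - β) = Y ^ α * Y ^ (-β) := by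
      rw [← Real.rpow_add hY0]; congr 1
    have e4 : ((2 : ℝ) ^ (α - β)) = 2 ^ α * 2 ^ (-β) := by
      rw [← Real.rpow_add (by norm_num)]; congr 1
    rw [e1, e2, e3, e4, mul_pow]
    ring
  refine (Finset.sum_le_sum h2).trans ?_
  rw [← Finset.mul_sum]
  have h3 : ∑ j ∈ range J, ((2 : ℝ) ^ (α - β)) ^ j ≤ (1 - 2 ^ (α - β))⁻¹ := by
    rw [← tsum_geometric_of_lt_one hq0 hq1]
    exact Summable.sum_le_tsum _ (fun j _ => by positivity)
      (summable_geometric_of_lt_one hq0 hq1)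
  calc C * 2 ^ α * Y ^ (α - β) * ∑ j ∈ range J, ((2 : ℝ) ^ (α - β)) ^ j ≤
      C * 2 ^ α * Y ^ (α - β) * (1 - 2 ^ (α - β))⁻¹ := by gcongr
    _ = _ := by ring

end Pool.Agent.Y679.Kf
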