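import Pool.Agent.Y679.Kf.Wt

/-! Many members, and many twists of members, of a family (helper679). -/

set_option autoImplicit false

namespace Pool.Agent.Y679.Kf

open Finset Polynomial
open Pool.Agent.TH867.QF (Fm ev va Rs Rs_pos Pt U U_pos ht ht_pos va_pos va_le)
open Pool.Agent.TH498.KB (Mem MinS Cond hom_eval prim_of_minS)
open Pool.Agent.W4.VC (hom)

/-- a minimal model -/
theorem min_ex : ∀ (n : ℕ) (a b : ℤ), (4 * a ^ 3 - 27 * b ^ 2).natAbs ≤ n →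
    4 * a ^ 3 - 27 * b ^ 2 ≠ 0 → ∃ (y : ℕ) (a0 b0 : ℤ), 0 < y ∧ a = (y : ℤ) ^ 4 * a0 ∧
      b = (y : ℤ) ^ 6 * b0 ∧ MinS a0 b0 := by
  intro n
  induction n with
  | zero =>
    intro a b h1 h2
    exact absurd (Int.natAbs_eq_zero.1 (Nat.le_zero.1 h1)) h2
  | succ n ih =>
    intro a b h1 h2
    by_cases hz : ∃ z : ℕ, 2 ≤ z ∧ (z : ℤ) ^ 4 ∣ a ∧ (z : ℤ) ^ 6 ∣ b
    · obtain ⟨z, hz2, ⟨a1, ha1⟩, ⟨b1, hb1⟩⟩ := hz
      have e1 : 4 * a ^ 3 - 27 * b ^ 2 = (z : ℤ) ^ 12 * (4 * a1 ^ 3 - 27 * b1 ^ 2) := by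
        rw [ha1, hb1]; ring
      have h3 : 4 * a1 ^ 3 - 27 * b1 ^ 2 ≠ 0 := by
        intro h0
        rw [h0, mul_zero] at e1
        exact h2 e1
      have h4 : (4 * a1 ^ 3 - 27 * b1 ^ 2).natAbs < (4 * a ^ 3 - 27 * b ^ 2).natAbs := by
        rw [e1, Int.natAbs_mul, Int.natAbs_pow, Int.natAbs_natCast]
        have h5 : 0 < (4 * a1 ^ 3 - 27 * b1 ^ 2).natAbs := Int.natAbs_pos.2 h3
        have h6 : 2 ^ 12 ≤ z ^ 12 := Nat.pow_le_pow_left hz2 12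
        nlinarith
      obtain ⟨y, a0, b0, g1, g2, g3, g4⟩ := ih a1 b1 (by omega) h3
      refine ⟨z * y, a0, b0, by positivity, ?_, ?_, g4⟩
      · rw [ha1, g2]; push_cast; ring
      · rw [hb1, g3]; push_cast; ring
    · push Not at hz
      refine ⟨1, a, b, one_pos, by norm_num, by norm_num, h2, ?_⟩
      intro u a' b' hu ha hb
      -- `u` is an integer
      have hden : (u.den : ℤ) ^ 4 ∣ a ∧ (u.den : ℤ) ^ 6 ∣ b := by
        have hcop : IsCoprime (u.den : ℤ) u.num := by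
          rw [Int.isCoprime_iff_gcd_eq_one, Int.gcd_comm]
          exact u.reduced
        have hu0 : (u.den : ℚ) ≠ 0 := by exact_mod_cast u.den_nz
        have huu : u = (u.num : ℚ) / u.den := (Rat.num_div_den u).symm
        constructor
        · have e1 : ((a' * (u.den : ℤ) ^ 4 : ℤ) : ℚ) = ((u.num ^ 4 * a : ℤ) : ℚ) := by
            push_cast
            rw [ha]
            nth_rewrite 1 [huu]
            field_simp
          have e2 : a' * (u.den : ℤ) ^ 4 = u.num ^ 4 * a := by exact_mod_cast e1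
          exact (hcop.pow).dvd_of_dvd_mul_left (⟨a', by rw [← e2]; ring⟩ : (u.den : ℤ) ^ 4 ∣ u.num ^ 4 * a)
        · have e1 : ((b' * (u.den : ℤ) ^ 6 : ℤ) : ℚ) = ((u.num ^ 6 * b : ℤ) : ℚ) := by
            push_cast
            rw [hb]
            nth_rewrite 1 [huu]
            field_simp
          have e2 : b' * (u.den : ℤ) ^ 6 = u.num ^ 6 * b := by exact_mod_cast e1
          exact (hcop.pow).dvd_of_dvd_mul_left (⟨b', by rw [← e2]; ring⟩ : (u.den : ℤ) ^ 6 ∣ u.num ^ 6 * b)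
      have hd1 : u.den = 1 := by
        by_contra hcon
        have h3 : 2 ≤ u.den := by
          have := u.den_pos
          omega
        exact hz u.den h3 hden.1 hden.2
      have huu : u = (u.num : ℚ) := by
        conv_lhs => rw [← Rat.num_div_den u, hd1]
        simp
      have hn0 : u.num ≠ 0 := Rat.num_ne_zero.2 hu
      have ea : a' = u.num ^ 4 * a := by
        have : (a' : ℚ) = ((u.num ^ 4 * a : ℤ) : ℚ) := by
          push_cast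
          rw [ha, ← huu]
        exact_mod_cast this
      have eb : b' = u.num ^ 6 * b := by
        have : (b' : ℚ) = ((u.num ^ 6 * b : ℤ) : ℚ) := by
          push_cast
          rw [hb, ← huu]
        exact_mod_cast this
      have e1 : 4 * a' ^ 3 - 27 * b' ^ 2 = u.num ^ 12 * (4 * a ^ 3 - 27 * b ^ 2) := by
        rw [ea, eb]; ring
      rw [e1, abs_mul, abs_pow]
      have h3 : (1 : ℤ) ≤ |u.num| ^ 12 := one_le_pow₀ (Int.one_le_abs hn0)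
      exact le_mul_of_one_le_left (abs_nonneg _) h3

theorem sqf_uniq {q q' y y' : ℕ} (hq : Squarefree q) (hq' : Squarefree q') (hy : 0 < y)
    (hy' : 0 < y') (h : q * y' ^ 2 = q' * y ^ 2) : q = q' := by
  refine Nat.eq_of_factorization_eq hq.ne_zero hq'.ne_zero fun p => ?_
  have h1 : (q * y' ^ 2).factorization p = (q' * y ^ 2).factorization p := by rw [h]
  rw [Nat.factorization_mul hq.ne_zero (by positivity), Nat.factorization_mul hq'.ne_zero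
    (by positivity), Nat.factorization_pow, Nat.factorization_pow] at h1
  simp only [Finsupp.add_apply, Finsupp.smul_apply, smul_eq_mul] at h1
  have h2 := hq.natFactorization_le_one p
  have h3 := hq'.natFactorization_le_one p
  omega

variable {r : ℕ} {A B : ℤ[X]} {k : ℕ} {L : Fm r} {e : Fin r → ℕ} {c : ℤ}

/-- a minimal model of a twist -/
theorem psi (h : RF A B k L e c) {M : ℕ} (hM1 : 1 ≤ M) (hM : GcdM A B k M) {P : ℤ × ℤ}
    (hP : 0 < P.2) (hpt : Pt L P) {q : ℕ} (hq : Squarefree q) :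
    ∃ (a b : ℤ) (y : ℕ), 0 < y ∧ MinS a b ∧ Rel A B k a b P q ((y : ℤ) ^ 2) ∧ TwMem A B a b ∧
      (q = 1 → ∀ k' : ℕ, k = 2 * k' → Mem A B a b) ∧ Cond a b ≤ Mc M c ^ 2 * (q ^ 2 * rd (Vp L P)) := by
  have hq0 : (q : ℤ) ≠ 0 := by exact_mod_cast hq.ne_zero
  have hq0' : (q : ℚ) ≠ 0 := by exact_mod_cast hq.ne_zero
  obtain ⟨a1, ha1⟩ : ∃ a1 : ℤ, a1 = (q : ℤ) ^ 2 * hom A (2 * k) P.1 P.2 := ⟨_, rfl⟩
  obtain ⟨b1, hb1⟩ : ∃ b1 : ℤ, b1 = (q : ℤ) ^ 3 * hom B (3 * k) P.1 P.2 := ⟨_, rfl⟩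
  have hD1 : 4 * a1 ^ 3 - 27 * b1 ^ 2 ≠ 0 := by
    have e1 : 4 * a1 ^ 3 - 27 * b1 ^ 2 = (q : ℤ) ^ 6 * Ds L e c P := by
      rw [← disc_hom h P hP.ne', ha1, hb1]; ring
    rw [e1]
    exact mul_ne_zero (pow_ne_zero _ hq0) (Ds_ne h.hc hpt)
  obtain ⟨y, a, b, hy, h1, h2, hmin⟩ := min_ex _ a1 b1 le_rfl hD1
  have hy0 : (y : ℚ) ≠ 0 := by exact_mod_cast hy.ne'
  have hn0 : (P.2 : ℚ) ≠ 0 := by exact_mod_cast hP.ne'
  have hrel : Rel A B k a b P q ((y : ℤ) ^ 2) := by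
    constructor
    · rw [← ha1, h1]; ring
    · rw [← hb1, h2]; ring
  -- the parameters
  obtain ⟨t, ht⟩ : ∃ t : ℚ, t = (P.1 : ℚ) / P.2 := ⟨_, rfl⟩
  have htn : t.num = P.1 ∧ (t.den : ℤ) = P.2 := by
    have hc1 : P.1.natAbs.Coprime P.2.natAbs := Int.isCoprime_iff_gcd_eq_one.1 hpt.cop
    rw [ht]
    exact ⟨Rat.num_div_eq_of_coprime hP hc1, Rat.den_div_eq_of_coprime hP hc1⟩
  have hPt : (t.num, (t.den : ℤ)) = P := Prod.ext htn.1 htn.2
  have htd : (t.den : ℚ) = P.2 := by exact_mod_cast htn.2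
  obtain ⟨δ, hδ⟩ : ∃ δ : ℚ, δ = q / (y : ℚ) ^ 2 * (P.2 : ℚ) ^ k := ⟨_, rfl⟩
  have hδ0 : δ ≠ 0 := by
    rw [hδ]
    exact mul_ne_zero (div_ne_zero hq0' (pow_ne_zero _ hy0)) (pow_ne_zero _ hn0)
  have eA := hom_eval A (2 * k) h.hA P.1 P.2 hn0
  have eB := hom_eval B (3 * k) h.hB P.1 P.2 hn0
  rw [← ht] at eA eB
  have p1 : (P.2 : ℚ) ^ (2 * k) = ((P.2 : ℚ) ^ k) ^ 2 := by
    rw [← pow_mul]; congr 1; ring
  have p2 : (P.2 : ℚ) ^ (3 * k) = ((P.2 : ℚ) ^ k) ^ 3 := by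
    rw [← pow_mul]; congr 1; ring
  have r1 : (a : ℚ) * ((y : ℚ) ^ 2) ^ 2 = (q : ℚ) ^ 2 * ((hom A (2 * k) P.1 P.2 : ℤ) : ℚ) := by
    exact_mod_cast hrel.h1
  have r2 : (b : ℚ) * ((y : ℚ) ^ 2) ^ 3 = (q : ℚ) ^ 3 * ((hom B (3 * k) P.1 P.2 : ℤ) : ℚ) := by
    exact_mod_cast hrel.h2
  have ha : (a : ℚ) = δ ^ 2 * (A.map (Int.castRingHom ℚ)).eval t := by
    rw [eA, p1] at r1
    have : (a : ℚ) = ((q : ℚ) ^ 2 * (((P.2 : ℚ) ^ k) ^ 2 *
      (A.map (Int.castRingHom ℚ)).eval t)) / ((y : ℚ) ^ 2) ^ 2 := by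
      rw [eq_div_iff (pow_ne_zero _ (pow_ne_zero _ hy0))]
      exact r1
    rw [this, hδ]
    field_simp
  have hb : (b : ℚ) = δ ^ 3 * (B.map (Int.castRingHom ℚ)).eval t := by
    rw [eB, p2] at r2
    have : (b : ℚ) = ((q : ℚ) ^ 3 * (((P.2 : ℚ) ^ k) ^ 3 *
      (B.map (Int.castRingHom ℚ)).eval t)) / ((y : ℚ) ^ 2) ^ 3 := by
      rw [eq_div_iff (pow_ne_zero _ (pow_ne_zero _ hy0))]
      exact r2
    rw [this, hδ]
    field_simp
  refine ⟨a, b, y, hy, hmin, hrel, ⟨t, δ, hδ0, ha, hb⟩, ?_, ?_⟩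
  · -- untwisted
    intro hq1 k' hk'
    have hδu : δ = ((P.2 : ℚ) ^ k' / y) ^ 2 := by
      rw [hδ, hq1, Nat.cast_one, div_pow, ← pow_mul, hk', mul_comm k' 2]
      ring
    refine ⟨t, (P.2 : ℚ) ^ k' / y, div_ne_zero (pow_ne_zero _ hn0) hy0, ?_, ?_⟩
    · rw [ha, hδu]
      ring
    · rw [hb, hδu]
      ring
  · obtain ⟨g1, g2, g3, g4, g5⟩ := par h hM hmin hδ0 ha hb
    rw [hPt] at g1 g5
    obtain ⟨ρ, hρ⟩ : ∃ ρ : ℚ, ρ = δ / (t.den : ℚ) ^ k := ⟨_, rfl⟩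
    rw [← hρ] at g2 g3 g4 g5
    have hρq : ρ = (q : ℚ) / (y : ℚ) ^ 2 := by
      rw [hρ, hδ, htd]
      field_simp
    have hdvd : ρ.num ∣ (q : ℤ) := by
      have hy2 : ((y : ℤ) ^ 2) ≠ 0 := by positivity
      have h3 := Rat.num_dvd (q : ℤ) hy2
      rw [Rat.divInt_eq_div] at h3
      push_cast at h3
      rw [← hρq] at h3
      exact h3
    have hsq : Squarefree ρ.num.natAbs := Int.squarefree_natAbs.2 g4
    have h3 := cond_le h hM1 hM hP.ne' g1 g2 g3 g5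
    refine h3.trans (Nat.mul_le_mul_left _ ((Wt_le (Vp_ne hpt) hsq).trans ?_))
    refine Nat.mul_le_mul_right _ (Nat.pow_le_pow_left ?_ 2)
    refine Nat.le_of_dvd (Nat.pos_of_ne_zero hq.ne_zero) ?_
    have := Int.natAbs_dvd_natAbs.2 hdvd
    rwa [Int.natAbs_natCast] at this

/-- the twist is determined by the model and the point -/
theorem q_uniq (h : RF A B k L e c) {P : ℤ × ℤ} (hP : 0 < P.2) (hpt : Pt L P) {a b : ℤ}
    {q q' y y' : ℕ} (hD : 4 * a ^ 3 - 27 * b ^ 2 ≠ 0) (hq : Squarefree q) (hq' : Squarefree q')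
    (hy : 0 < y) (hy' : 0 < y')
    (h1 : Rel A B k a b P q ((y : ℤ) ^ 2)) (h2 : Rel A B k a b P q' ((y' : ℤ) ^ 2)) : q = q' := by
  have hDs := Ds_ne (e := e) h.hc hpt
  have hy0 : (y : ℤ) ≠ 0 := by exact_mod_cast hy.ne'
  have hy0' : (y' : ℤ) ≠ 0 := by exact_mod_cast hy'.ne'
  have hqy : (q : ℤ) * (y' : ℤ) ^ 2 = q' * (y : ℤ) ^ 2 := by
    have hn1 : (0 : ℤ) ≤ (q : ℤ) * (y' : ℤ) ^ 2 := by positivity
    have hn2 : (0 : ℤ) ≤ (q' : ℤ) * (y : ℤ) ^ 2 := by positivity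
    by_cases hA : hom A (2 * k) P.1 P.2 = 0
    · have hB : hom B (3 * k) P.1 P.2 ≠ 0 := by
        intro hB
        apply hDs
        rw [← disc_hom h P hP.ne', hA, hB]
        ring
      have e1 : (((q : ℤ) * (y' : ℤ) ^ 2) ^ 3) * hom B (3 * k) P.1 P.2 =
          (((q' : ℤ) * (y : ℤ) ^ 2) ^ 3) * hom B (3 * k) P.1 P.2 := by
        have g1 := h1.h2
        have g2 := h2.h2
        linear_combination (y : ℤ) ^ 6 * g2 - (y' : ℤ) ^ 6 * g1
      have e2 := mul_right_cancel₀ hB e1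
      exact (pow_left_inj₀ hn1 hn2 (by norm_num)).1 e2
    · have e1 : (((q : ℤ) * (y' : ℤ) ^ 2) ^ 2) * hom A (2 * k) P.1 P.2 =
          (((q' : ℤ) * (y : ℤ) ^ 2) ^ 2) * hom A (2 * k) P.1 P.2 := by
        have g1 := h1.h1
        have g2 := h2.h1
        linear_combination (y : ℤ) ^ 4 * g2 - (y' : ℤ) ^ 4 * g1
      have e2 := mul_right_cancel₀ hA e1
      exact (pow_left_inj₀ hn1 hn2 (by norm_num)).1 e2
  have h3 : q * y' ^ 2 = q' * y ^ 2 := by exact_mod_cast hqy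
  exact sqf_uniq hq hq' hy hy' h3

/-- the polynomial of a model -/
noncomputable def Gw (A B : ℤ[X]) (a b : ℤ) : ℚ[X] :=
  C ((a : ℚ) ^ 3) * (B.map (Int.castRingHom ℚ)) ^ 2 - C ((b : ℚ) ^ 2) * (A.map (Int.castRingHom ℚ)) ^ 3

theorem Gw_ne (h : RF A B k L e c) {a b : ℤ} (hD : 4 * a ^ 3 - 27 * b ^ 2 ≠ 0) :
    Gw A B a b ≠ 0 := by
  intro h0
  obtain ⟨f, hf⟩ : ∃ f : ℚ[X], f = A.map (Int.castRingHom ℚ) := ⟨_, rfl⟩
  obtain ⟨g, hg⟩ : ∃ g : ℚ[X], g = B.map (Int.castRingHom ℚ) := ⟨_, rfl⟩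
  have hcop := h.hcop
  have hfd : f.natDegree = A.natDegree := by
    rw [hf]; exact natDegree_map_eq_of_injective Int.cast_injective A
  have hgd : g.natDegree = B.natDegree := by
    rw [hg]; exact natDegree_map_eq_of_injective Int.cast_injective B
  unfold Gw at h0
  rw [← hf, ← hg] at h0 hcop
  have hk := h.hk
  have heq : C ((a : ℚ) ^ 3) * g ^ 2 = C ((b : ℚ) ^ 2) * f ^ 3 := sub_eq_zero.1 h0
  -- a unit has degree zero
  have hun : IsUnit f ∧ IsUnit g → False := by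
    rintro ⟨u1, u2⟩
    have d1 := natDegree_eq_zero_of_isUnit u1
    have d2 := natDegree_eq_zero_of_isUnit u2
    rw [hfd] at d1
    rw [hgd] at d2
    rcases h.hlead with h3 | h3 <;> omega
  by_cases ha : a = 0
  · have hb : b ≠ 0 := by
      rintro rfl
      apply hD
      rw [ha]; norm_num
    have hbQ : ((b : ℚ) ^ 2) ≠ 0 := pow_ne_zero _ (by exact_mod_cast hb)
    rw [ha] at heq
    simp only [Int.cast_zero, ne_eq, OfNat.ofNat_ne_zero, not_false_eq_true, zero_pow, C_0,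
      zero_mul] at heq
    have hf0 : f = 0 := by
      rcases mul_eq_zero.1 heq.symm with h3 | h3
      · exact absurd (C_eq_zero.1 h3) hbQ
      · exact pow_eq_zero_iff (by norm_num) |>.1 h3
    rw [hf0, isCoprime_zero_left] at hcop
    have d2 := natDegree_eq_zero_of_isUnit hcop
    rw [hf0, natDegree_zero] at hfd
    rcases h.hlead with h3 | h3 <;> omega
  · have haQ : ((a : ℚ) ^ 3) ≠ 0 := pow_ne_zero _ (by exact_mod_cast ha)
    have u1 : IsUnit f := by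
      have h3 : f ^ 3 ∣ C ((a : ℚ) ^ 3) * g ^ 2 := ⟨C ((b : ℚ) ^ 2), by rw [heq]; ring⟩
      have h4 : IsCoprime (f ^ 3) (g ^ 2) := hcop.pow
      have h5 : f ^ 3 ∣ C ((a : ℚ) ^ 3) := h4.dvd_of_dvd_mul_right h3
      have h6 : IsUnit (C ((a : ℚ) ^ 3)) := isUnit_C.2 (isUnit_iff_ne_zero.2 haQ)
      exact (isUnit_pow_iff (by norm_num)).1 (isUnit_of_dvd_unit h5 h6)
    by_cases hb : b = 0
    · rw [hb] at heq
      simp only [Int.cast_zero, ne_eq, OfNat.ofNat_ne_zero, not_false_eq_true, zero_pow, C_0,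
        zero_mul] at heq
      have hg0 : g = 0 := by
        rcases mul_eq_zero.1 heq with h3 | h3
        · exact absurd (C_eq_zero.1 h3) haQ
        · exact pow_eq_zero_iff (by norm_num) |>.1 h3
      have d1 := natDegree_eq_zero_of_isUnit u1
      rw [hg0, natDegree_zero] at hgd
      rcases h.hlead with h3 | h3 <;> omega
    · have hbQ : ((b : ℚ) ^ 2) ≠ 0 := pow_ne_zero _ (by exact_mod_cast hb)
      have u2 : IsUnit g := by
        have h3 : g ^ 2 ∣ C ((b : ℚ) ^ 2) * f ^ 3 := ⟨C ((a : ℚ) ^ 3), by rw [← heq]; ring⟩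
        have h4 : IsCoprime (g ^ 2) (f ^ 3) := hcop.symm.pow
        have h5 : g ^ 2 ∣ C ((b : ℚ) ^ 2) := h4.dvd_of_dvd_mul_right h3
        have h6 : IsUnit (C ((b : ℚ) ^ 2)) := isUnit_C.2 (isUnit_iff_ne_zero.2 hbQ)
        exact (isUnit_pow_iff (by norm_num)).1 (isUnit_of_dvd_unit h5 h6)
      exact hun ⟨u1, u2⟩

theorem Gw_deg (h : RF A B k L e c) (a b : ℤ) : (Gw A B a b).natDegree ≤ 6 * k := by
  unfold Gw
  refine (natDegree_sub_le _ _).trans (max_le ?_ ?_)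
  · refine (natDegree_C_mul_le _ _).trans (natDegree_pow_le.trans ?_)
    have := (natDegree_map_le (f := Int.castRingHom ℚ) (p := B)).trans h.hB
    omega
  · refine (natDegree_C_mul_le _ _).trans (natDegree_pow_le.trans ?_)
    have := (natDegree_map_le (f := Int.castRingHom ℚ) (p := A)).trans h.hA
    omega

/-- **many models** -/
theorem many (h : RF A B k L e c) {M : ℕ} (hM1 : 1 ≤ M) (hM : GcdM A B k M)
    (G : Finset ((ℤ × ℤ) × ℕ)) {N : ℝ}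
    (hG : ∀ w ∈ G, 0 < w.1.2 ∧ Pt L w.1 ∧ Squarefree w.2 ∧
      (Mc M c : ℝ) ^ 2 * ((w.2 : ℝ) ^ 2 * rd (Vp L w.1)) ≤ N) :
    ∃ F : Finset (ℤ × ℤ), (∀ p ∈ F, MinS p.1 p.2 ∧ TwMem A B p.1 p.2 ∧
      ((∀ w ∈ G, w.2 = 1) → ∀ k' : ℕ, k = 2 * k' → Mem A B p.1 p.2) ∧
      (Cond p.1 p.2 : ℝ) ≤ N) ∧ (G.card : ℝ) ≤ 12 * k * F.card := by
  classical
  have h1 : ∀ w : (ℤ × ℤ) × ℕ, ∃ p : (ℤ × ℤ) × ℕ, w ∈ G → 0 < p.2 ∧ MinS p.1.1 p.1.2 ∧
      Rel A B k p.1.1 p.1.2 w.1 w.2 ((p.2 : ℤ) ^ 2) ∧ TwMem A B p.1.1 p.1.2 ∧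
      (w.2 = 1 → ∀ k' : ℕ, k = 2 * k' → Mem A B p.1.1 p.1.2) ∧
      Cond p.1.1 p.1.2 ≤ Mc M c ^ 2 * (w.2 ^ 2 * rd (Vp L w.1)) := by
    intro w
    by_cases hw : w ∈ G
    · obtain ⟨g1, g2, g3, g4⟩ := hG w hw
      obtain ⟨a, b, y, f⟩ := psi h hM1 hM g1 g2 g3
      exact ⟨((a, b), y), fun _ => f⟩
    · exact ⟨((0, 0), 0), fun h0 => absurd h0 hw⟩
  choose ψ hψ using h1
  refine ⟨G.image fun w => (ψ w).1, ?_, ?_⟩
  · intro p hp
    obtain ⟨w, hw, rfl⟩ := mem_image.1 hp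
    obtain ⟨f1, f2, f3, f4, f5, f6⟩ := hψ w hw
    obtain ⟨g1, g2, g3, g4⟩ := hG w hw
    refine ⟨f2, f4, fun h0 => f5 (h0 w hw), ?_⟩
    have h2 : ((Cond (ψ w).1.1 (ψ w).1.2 : ℕ) : ℝ) ≤
        (Mc M c : ℝ) ^ 2 * ((w.2 : ℝ) ^ 2 * rd (Vp L w.1)) := by exact_mod_cast f6
    exact h2.trans g4
  · have hfib : ∀ p ∈ G.image (fun w => (ψ w).1), (G.filter fun w => (ψ w).1 = p).card ≤ 12 * k := by
      intro p hp
      obtain ⟨w0, hw0, hw0p⟩ := mem_image.1 hp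
      have hD : 4 * p.1 ^ 3 - 27 * p.2 ^ 2 ≠ 0 := by
        rw [← hw0p]
        exact (hψ w0 hw0).2.1.1
      have hmem : ∀ w ∈ G.filter (fun w => (ψ w).1 = p), (w.1.1 : ℚ) / w.1.2 ∈
          (Gw A B p.1 p.2).roots.toFinset := by
        intro w hw
        obtain ⟨hw1, hw2⟩ := mem_filter.1 hw
        obtain ⟨f1, f2, f3, f4, f5, f6⟩ := hψ w hw1
        obtain ⟨g1, g2, g3, g4⟩ := hG w hw1
        rw [hw2] at f3
        rw [Multiset.mem_toFinset, mem_roots (Gw_ne h hD), IsRoot.def]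
        unfold Gw
        rw [eval_sub, eval_mul, eval_C, eval_pow, eval_mul, eval_C, eval_pow]
        have hn0 : (w.1.2 : ℚ) ≠ 0 := by exact_mod_cast g1.ne'
        have hy0 : ((ψ w).2 : ℚ) ≠ 0 := by exact_mod_cast f1.ne'
        have hq0 : (w.2 : ℚ) ≠ 0 := by exact_mod_cast g3.ne_zero
        have eA := hom_eval A (2 * k) h.hA w.1.1 w.1.2 hn0
        have eB := hom_eval B (3 * k) h.hB w.1.1 w.1.2 hn0
        obtain ⟨α, hα⟩ : ∃ α : ℚ, α = (A.map (Int.castRingHom ℚ)).eval ((w.1.1 : ℚ) / w.1.2) :=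
          ⟨_, rfl⟩
        obtain ⟨β, hβ⟩ : ∃ β : ℚ, β = (B.map (Int.castRingHom ℚ)).eval ((w.1.1 : ℚ) / w.1.2) :=
          ⟨_, rfl⟩
        rw [← hα] at eA ⊢
        rw [← hβ] at eB ⊢
        have r1 : (p.1 : ℚ) * (((ψ w).2 : ℚ) ^ 2) ^ 2 =
            (w.2 : ℚ) ^ 2 * ((hom A (2 * k) w.1.1 w.1.2 : ℤ) : ℚ) := by exact_mod_cast f3.h1
        have r2 : (p.2 : ℚ) * (((ψ w).2 : ℚ) ^ 2) ^ 3 =
            (w.2 : ℚ) ^ 3 * ((hom B (3 * k) w.1.1 w.1.2 : ℤ) : ℚ) := by exact_mod_cast f3.h2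
        rw [eA] at r1
        rw [eB] at r2
        obtain ⟨n, hn⟩ : ∃ n : ℚ, n = (w.1.2 : ℚ) ^ (6 * k) := ⟨_, rfl⟩
        have p1 : ((w.1.2 : ℚ) ^ (2 * k)) ^ 3 = n := by rw [hn, ← pow_mul]; congr 1; ring
        have p2 : ((w.1.2 : ℚ) ^ (3 * k)) ^ 2 = n := by rw [hn, ← pow_mul]; congr 1; ring
        have hnn : n ≠ 0 := by rw [hn]; exact pow_ne_zero _ hn0
        have e1 : (((ψ w).2 : ℚ) ^ 12) * (w.2 : ℚ) ^ 6 * n * ((p.1 : ℚ) ^ 3 * β ^ 2 -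
            (p.2 : ℚ) ^ 2 * α ^ 3) = 0 := by
          have e2 : (p.1 : ℚ) ^ 3 * ((ψ w).2 : ℚ) ^ 12 = (w.2 : ℚ) ^ 6 * (n * α ^ 3) := by
            calc (p.1 : ℚ) ^ 3 * ((ψ w).2 : ℚ) ^ 12 = ((p.1 : ℚ) * (((ψ w).2 : ℚ) ^ 2) ^ 2) ^ 3 := by
                  ring
              _ = _ := by rw [r1, ← p1]; ring
          have e3 : (p.2 : ℚ) ^ 2 * ((ψ w).2 : ℚ) ^ 12 = (w.2 : ℚ) ^ 6 * (n * β ^ 2) := by
            calc (p.2 : ℚ) ^ 2 * ((ψ w).2 : ℚ) ^ 12 = ((p.2 : ℚ) * (((ψ w).2 : ℚ) ^ 2) ^ 3) ^ 2 := by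
                  ring
              _ = _ := by rw [r2, ← p2]; ring
          linear_combination ((w.2 : ℚ) ^ 6 * n * β ^ 2) * e2 - ((w.2 : ℚ) ^ 6 * n * α ^ 3) * e3
        rcases mul_eq_zero.1 e1 with h3 | h3
        · exact absurd h3 (mul_ne_zero (mul_ne_zero (pow_ne_zero _ hy0) (pow_ne_zero _ hq0)) hnn)
        · exact h3
      have hinj : Set.InjOn (fun w : (ℤ × ℤ) × ℕ => (w.1.1 : ℚ) / w.1.2)
          ((G.filter fun w => (ψ w).1 = p : Finset ((ℤ × ℤ) × ℕ)) : Set ((ℤ × ℤ) × ℕ)) := by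
        intro w hw w' hw' hww
        obtain ⟨hw1, hw2⟩ := mem_filter.1 (mem_coe.1 hw)
        obtain ⟨hw1', hw2'⟩ := mem_filter.1 (mem_coe.1 hw')
        obtain ⟨f1, f2, f3, f4, f5, f6⟩ := hψ w hw1
        obtain ⟨g1, g2, g3, g4⟩ := hG w hw1
        obtain ⟨f1', f2', f3', f4', f5', f6'⟩ := hψ w' hw1'
        obtain ⟨g1', g2', g3', g4'⟩ := hG w' hw1'
        have hc1 : w.1.1.natAbs.Coprime w.1.2.natAbs := Int.isCoprime_iff_gcd_eq_one.1 g2.cop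
        have hc1' : w'.1.1.natAbs.Coprime w'.1.2.natAbs := Int.isCoprime_iff_gcd_eq_one.1 g2'.cop
        simp only at hww
        have i1 : w.1.1 = w'.1.1 := by
          rw [← Rat.num_div_eq_of_coprime g1 hc1, ← Rat.num_div_eq_of_coprime g1' hc1', hww]
        have i2 : w.1.2 = w'.1.2 := by
          rw [← Rat.den_div_eq_of_coprime g1 hc1, ← Rat.den_div_eq_of_coprime g1' hc1', hww]
        have i3 : w.1 = w'.1 := Prod.ext i1 i2
        rw [hw2] at f3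
        rw [hw2', ← i3] at f3'
        have i4 := q_uniq h g1 g2 hD g3 g3' f1 f1' f3 f3'
        exact Prod.ext i3 i4
      refine (Finset.card_le_card_of_injOn _ hmem hinj).trans ?_
      exact (Multiset.toFinset_card_le _).trans ((card_roots' _).trans
        ((Gw_deg h _ _).trans (by omega)))
    exact_mod_cast Finset.card_le_mul_card_image G (12 * k) hfib

end Pool.Agent.Y679.Kf
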