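import Pool.Agent.Y679.Kf.Low
import Pool.Agent.TH867.SR.LB
import Pool.Agent.TH4.HS.Sqf

/-! Lower bounds for the number of members, and of twists of members, of a family (helper679). -/

set_option autoImplicit false

namespace Pool.Agent.Y679.Kf

open Finset Polynomial
open Pool.Agent.TH867.QF (Fm ev va Rs Rs_pos Pt U U_pos ht ht_pos va_pos va_le)
open Pool.Agent.TH498.KB (Mem MinS Cond hom_eval prim_of_minS)
open Pool.Agent.W4.VC (hom)
open Pool.Agent.TH867.SR (cpp coprime_count)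

theorem zero_one {r : ℕ} (L : Fm (r + 2)) (i : Fin (r + 2)) (T : Finset (ℕ × ℕ))
    (hT : ∀ p ∈ T, 0 < p.1 ∧ 0 < p.2 ∧ Nat.Coprime p.1 p.2) :
    (T.filter fun p => ev L ((p.1 : ℤ), (p.2 : ℤ)) i = 0).card ≤ 1 := by
  rw [Finset.card_le_one]
  intro p hp p' hp'
  obtain ⟨h1, h2⟩ := mem_filter.1 hp
  obtain ⟨h1', h2'⟩ := mem_filter.1 hp'
  obtain ⟨a1, a2, a3⟩ := hT p h1
  obtain ⟨b1, b2, b3⟩ := hT p' h1'
  unfold ev at h2 h2'
  simp only at h2 h2'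
  -- one of the coefficients is not zero
  have huw : L.u i ≠ 0 ∨ L.w i ≠ 0 := by
    by_contra hcon
    push Not at hcon
    obtain ⟨j, hij⟩ : ∃ j : Fin (r + 2), i ≠ j := by
      by_contra hcon
      push Not at hcon
      have e1 := hcon ⟨0, by omega⟩
      have e2 := hcon ⟨1, by omega⟩
      rw [e1] at e2
      exact absurd (Fin.mk.inj_iff.1 e2) (by norm_num)
    apply L.res i j hij
    rw [hcon.1, hcon.2]
    ring
  have hprop : (p.1 : ℤ) * p'.2 = p'.1 * p.2 := by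
    rcases huw with hu | hw
    · refine mul_left_cancel₀ hu ?_
      linear_combination (p'.2 : ℤ) * h2 - (p.2 : ℤ) * h2'
    · refine mul_left_cancel₀ hw ?_
      linear_combination (p.1 : ℤ) * h2' - (p'.1 : ℤ) * h2
  have hprop' : p.1 * p'.2 = p'.1 * p.2 := by exact_mod_cast hprop
  have d1 : p.1 ∣ p'.1 := by
    refine a3.dvd_of_dvd_mul_right ?_
    rw [← hprop']
    exact dvd_mul_right _ _
  have d2 : p'.1 ∣ p.1 := by
    refine b3.dvd_of_dvd_mul_right ?_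
    rw [hprop']
    exact dvd_mul_right _ _
  have e1 : p.1 = p'.1 := Nat.dvd_antisymm d1 d2
  have e2 : p.2 = p'.2 := by
    rw [e1] at hprop'
    exact (Nat.eq_of_mul_eq_mul_left b1 hprop').symm
  exact Prod.ext e1 e2

/-- a shell of points -/
theorem shell {d : ℕ} (L : Fm (d + 3)) (H : ℕ) (hH : 2 * (d + 3) ≤ H ^ 2) :
    ∃ S : Finset (ℤ × ℤ), (∀ P ∈ S, 0 < P.2 ∧ Pt L P ∧ H < ht P ∧ ht P ≤ 4 * H) ∧
      (H : ℝ) ^ 2 / 2 ≤ S.card := by
  classical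
  have hH1 : 1 ≤ H := by
    rcases Nat.eq_zero_or_pos H with h0 | h0
    · rw [h0] at hH; simp at hH
    · exact h0
  obtain ⟨T, hT⟩ : ∃ T : Finset (ℕ × ℕ), T = cpp (4 * H) \ cpp H := ⟨_, rfl⟩
  have hTm : ∀ p ∈ T, 0 < p.1 ∧ 0 < p.2 ∧ Nat.Coprime p.1 p.2 ∧ p.1 ≤ p.2 ∧ p.2 ≤ 4 * H ∧
      H < p.2 := by
    intro p hp
    rw [hT, mem_sdiff] at hp
    obtain ⟨h1, h2⟩ := hp
    unfold cpp at h1 h2
    obtain ⟨h3, h4, h5⟩ := mem_filter.1 h1
    rw [mem_product, mem_Ioc, mem_Ioc] at h3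
    obtain ⟨⟨k1, k2⟩, k3, k4⟩ := h3
    refine ⟨k1, k3, h5, h4, k4, ?_⟩
    by_contra hcon
    push Not at hcon
    exact h2 (mem_filter.2 ⟨mem_product.2 ⟨mem_Ioc.2 ⟨k1, h4.trans hcon⟩,
      mem_Ioc.2 ⟨k3, hcon⟩⟩, h4, h5⟩)
  have hTc : (H : ℝ) ^ 2 ≤ T.card := by
    have h1 := coprime_count (4 * H) (by omega)
    have h2 : (cpp H).card ≤ H * H := by
      unfold cpp
      refine (card_filter_le _ _).trans (le_of_eq ?_)
      rw [card_product, Nat.card_Ioc, Nat.sub_zero]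
    have h3 : (cpp (4 * H)).card ≤ T.card + (cpp H).card := by
      rw [hT]
      have := Finset.card_le_card_sdiff_add_card (s := cpp (4 * H)) (t := cpp H)
      exact this
    have h4 : ((cpp (4 * H)).card : ℝ) ≤ T.card + (cpp H).card := by exact_mod_cast h3
    have h5 : ((cpp H).card : ℝ) ≤ (H : ℝ) * H := by exact_mod_cast h2
    push_cast at h1
    nlinarith
  obtain ⟨T', hT'⟩ : ∃ T' : Finset (ℕ × ℕ), T' = T.filter fun p =>
    ∀ i, ev L ((p.1 : ℤ), (p.2 : ℤ)) i ≠ 0 := ⟨_, rfl⟩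
  have hT'c : (T.card : ℝ) ≤ T'.card + (d + 3 : ℕ) := by
    have h1 : T ⊆ T' ∪ (Finset.univ : Finset (Fin (d + 3))).biUnion fun i =>
        T.filter fun p => ev L ((p.1 : ℤ), (p.2 : ℤ)) i = 0 := by
      intro p hp
      rw [mem_union, hT', mem_filter, mem_biUnion]
      by_cases hq : ∀ i, ev L ((p.1 : ℤ), (p.2 : ℤ)) i ≠ 0
      · exact Or.inl ⟨hp, hq⟩
      · push Not at hq
        obtain ⟨i, hi⟩ := hq
        exact Or.inr ⟨i, mem_univ i, mem_filter.2 ⟨hp, hi⟩⟩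
    have h2 := (card_le_card h1).trans (card_union_le _ _)
    have h3 : ((Finset.univ : Finset (Fin (d + 3))).biUnion fun i =>
        T.filter fun p => ev L ((p.1 : ℤ), (p.2 : ℤ)) i = 0).card ≤ d + 3 := by
      refine card_biUnion_le.trans ?_
      calc ∑ i : Fin (d + 3), (T.filter fun p => ev L ((p.1 : ℤ), (p.2 : ℤ)) i = 0).card ≤
          ∑ _i : Fin (d + 3), 1 := Finset.sum_le_sum fun i _ =>
            zero_one (r := d + 1) L i T fun p hp => ⟨(hTm p hp).1, (hTm p hp).2.1, (hTm p hp).2.2.1⟩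
        _ = d + 3 := by simp
    exact_mod_cast h2.trans (Nat.add_le_add_left h3 _)
  refine ⟨T'.image fun p => ((p.1 : ℤ), (p.2 : ℤ)), ?_, ?_⟩
  · intro P hP
    obtain ⟨p, hp, rfl⟩ := mem_image.1 hP
    rw [hT', mem_filter] at hp
    obtain ⟨h1, h2⟩ := hp
    obtain ⟨k1, k2, k3, k4, k5, k6⟩ := hTm p h1
    refine ⟨?_, ⟨?_, h2⟩, ?_, ?_⟩
    · simp only
      exact_mod_cast k2
    · simp only
      exact Nat.isCoprime_iff_coprime.2 k3
    · unfold ht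
      simp only [Int.natAbs_natCast]
      exact lt_max_of_lt_right k6
    · unfold ht
      simp only [Int.natAbs_natCast]
      exact max_le (k4.trans k5) k5
  · rw [card_image_of_injective]
    · have h1 : ((d + 3 : ℕ) : ℝ) ≤ (H : ℝ) ^ 2 / 2 := by
        have : ((2 * (d + 3) : ℕ) : ℝ) ≤ ((H ^ 2 : ℕ) : ℝ) := by exact_mod_cast hH
        push_cast at this ⊢
        linarith
      linarith
    · intro p p' hpp
      simp only [Prod.mk.injEq, Nat.cast_inj] at hpp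
      exact Prod.ext hpp.1 hpp.2

theorem Vp_le {r : ℕ} (L : Fm r) (P : ℤ × ℤ) : Vp L P ≤ (U L * ht P) ^ r := by
  unfold Vp
  calc ∏ i, va L P i ≤ ∏ _i : Fin r, U L * ht P := Finset.prod_le_prod' fun i _ => va_le L P i
    _ = (U L * ht P) ^ r := by rw [prod_const, card_univ, Fintype.card_fin]

theorem rd_Vp_le {r : ℕ} (L : Fm r) {P : ℤ × ℤ} (h : Pt L P) {H : ℕ} (hH : ht P ≤ 4 * H) :
    (rd (Vp L P) : ℝ) ≤ (4 * U L * H : ℝ) ^ r := by
  have h1 : rd (Vp L P) ≤ (U L * (4 * H)) ^ r :=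
    (rd_le (Vp_ne h)).trans ((Vp_le L P).trans (Nat.pow_le_pow_left (Nat.mul_le_mul_left _ hH) _))
  have h2 : (rd (Vp L P) : ℝ) ≤ ((U L * (4 * H) : ℕ) : ℝ) ^ r := by exact_mod_cast h1
  refine h2.trans (le_of_eq ?_)
  push_cast
  congr 1
  ring

variable {d : ℕ} {A B : ℤ[X]} {k : ℕ} {L : Fm (d + 3)} {e : Fin (d + 3) → ℕ} {c : ℤ}

/-- **many members** -/
theorem un_lower (h : RF A B k L e c) : ∃ κ : ℝ, 0 < κ ∧ ∃ N0 : ℝ, ∀ N : ℝ, N0 ≤ N →
    ∃ F : Finset (ℤ × ℤ), (∀ p ∈ F, MinS p.1 p.2 ∧ TwMem A B p.1 p.2 ∧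
      (∀ k' : ℕ, k = 2 * k' → Mem A B p.1 p.2) ∧ (Cond p.1 p.2 : ℝ) ≤ N) ∧
      κ * N ^ (2 / ((d : ℝ) + 3)) ≤ F.card := by
  classical
  obtain ⟨M, hM1, hM⟩ := gcdM_ex h
  have hk : (0 : ℝ) < k := by exact_mod_cast h.hk
  have hd3 : (0 : ℝ) < (d : ℝ) + 3 := by positivity
  have hcast : (((d + 3 : ℕ)) : ℝ) = (d : ℝ) + 3 := by push_cast; ring
  obtain ⟨Q, hQ⟩ : ∃ Q : ℝ, Q = (Mc M c : ℝ) ^ 2 * (4 * U L : ℝ) ^ (d + 3) := ⟨_, rfl⟩
  have hU : (1 : ℝ) ≤ U L := by exact_mod_cast U_pos L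
  have hMc : (1 : ℝ) ≤ Mc M c := by exact_mod_cast Nat.pos_of_ne_zero (Mc_ne hM1 h.hc)
  have hQ0 : 0 < Q := by rw [hQ]; positivity
  obtain ⟨H0, hH0⟩ : ∃ H0 : ℕ, H0 = 2 * (d + 3) := ⟨_, rfl⟩
  refine ⟨1 / (96 * k) * (1 / Q) ^ (2 / ((d : ℝ) + 3)), by positivity,
    Q * ((H0 : ℝ) + 1) ^ (d + 3), fun N hN => ?_⟩
  have hN0 : 0 < N := lt_of_lt_of_le (by positivity) hN
  obtain ⟨X, hX⟩ : ∃ X : ℝ, X = (N / Q) ^ (1 / ((d : ℝ) + 3)) := ⟨_, rfl⟩
  have hNQ : 0 < N / Q := by positivity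
  have hX0 : 0 < X := by rw [hX]; positivity
  have hXr : X ^ (d + 3) = N / Q := by
    rw [hX, ← Real.rpow_natCast, ← Real.rpow_mul hNQ.le, hcast, one_div_mul_cancel hd3.ne',
      Real.rpow_one]
  have hXH : (H0 : ℝ) + 1 ≤ X := by
    refine le_of_pow_le_pow_left₀ (n := d + 3) (by omega) hX0.le ?_
    rw [hXr, le_div_iff₀ hQ0]
    linarith
  obtain ⟨H, hH⟩ : ∃ H : ℕ, H = ⌊X⌋₊ := ⟨_, rfl⟩
  have hHX : (H : ℝ) ≤ X := by rw [hH]; exact Nat.floor_le hX0.le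
  have hXH1 : X < H + 1 := by rw [hH]; exact Nat.lt_floor_add_one X
  have hHH0 : H0 ≤ H := by
    have : (H0 : ℝ) < H + 1 := by linarith
    have : H0 < H + 1 := by exact_mod_cast this
    omega
  have hH1 : (1 : ℝ) ≤ H := by
    have : 1 ≤ H := by omega
    exact_mod_cast this
  obtain ⟨S, hS1, hS2⟩ := shell L H (by nlinarith)
  obtain ⟨G, hG⟩ : ∃ G : Finset ((ℤ × ℤ) × ℕ), G = S.image fun P => (P, 1) := ⟨_, rfl⟩
  have hGc : G.card = S.card := by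
    rw [hG, card_image_of_injective]
    intro P P' hPP
    exact (Prod.mk.injEq _ _ _ _ ▸ hPP).1
  obtain ⟨F, hF1, hF2⟩ := many h hM1 hM G (N := N) (fun w hw => by
    rw [hG] at hw
    obtain ⟨P, hP, rfl⟩ := mem_image.1 hw
    obtain ⟨k1, k2, k3, k4⟩ := hS1 P hP
    refine ⟨k1, k2, squarefree_one, ?_⟩
    have h1 := rd_Vp_le L k2 k4
    simp only [Nat.cast_one, one_pow, one_mul]
    calc (Mc M c : ℝ) ^ 2 * rd (Vp L P) ≤ (Mc M c : ℝ) ^ 2 * (4 * U L * H : ℝ) ^ (d + 3) := by gcongr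
      _ = Q * (H : ℝ) ^ (d + 3) := by rw [hQ, mul_pow (4 * (U L : ℝ)) (H : ℝ)]; ring
      _ ≤ Q * X ^ (d + 3) := by gcongr
      _ = N := by rw [hXr]; field_simp)
  refine ⟨F, fun p hp => ?_, ?_⟩
  · obtain ⟨g1, g2, g3, g4⟩ := hF1 p hp
    refine ⟨g1, g2, g3 fun w hw => ?_, g4⟩
    rw [hG] at hw
    obtain ⟨P, hP, rfl⟩ := mem_image.1 hw
    rfl
  · rw [hGc] at hF2
    have h1 : X ^ 2 / 8 ≤ 12 * k * F.card := by
      have h2 : X ≤ 2 * H := by linarith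
      have h3 : X ^ 2 ≤ (2 * H) ^ 2 := pow_le_pow_left₀ hX0.le h2 2
      nlinarith
    have e1 : X ^ 2 = (1 / Q) ^ (2 / ((d : ℝ) + 3)) * N ^ (2 / ((d : ℝ) + 3)) := by
      rw [hX, ← Real.rpow_natCast, ← Real.rpow_mul hNQ.le, ← Real.mul_rpow (by positivity) hN0.le]
      congr 1
      · ring
      · push_cast; ring
    rw [e1] at h1
    rw [div_mul_eq_mul_div, one_mul, div_mul_eq_mul_div, div_le_iff₀ (by positivity)]
    linarith

/-- **many twists** -/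
theorem tw_lower (h : RF A B k L e c) : ∃ κ : ℝ, 0 < κ ∧ ∃ N0 : ℝ, ∀ N : ℝ, N0 ≤ N →
    ∃ F : Finset (ℤ × ℤ), (∀ p ∈ F, MinS p.1 p.2 ∧ TwMem A B p.1 p.2 ∧ (Cond p.1 p.2 : ℝ) ≤ N) ∧
      κ * Real.sqrt N ≤ F.card := by
  classical
  obtain ⟨M, hM1, hM⟩ := gcdM_ex h
  have hk : (0 : ℝ) < k := by exact_mod_cast h.hk
  obtain ⟨S, hS1, hS2⟩ := shell L (2 * (d + 3)) (by nlinarith)
  have hne : S.Nonempty := by
    rw [← card_pos]
    have : (0 : ℝ) < S.card := lt_of_lt_of_le (by positivity) hS2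
    exact_mod_cast this
  obtain ⟨P, hP⟩ := hne
  obtain ⟨k1, k2, -, -⟩ := hS1 P hP
  obtain ⟨Q, hQ⟩ : ∃ Q : ℝ, Q = (Mc M c : ℝ) * Real.sqrt (rd (Vp L P)) := ⟨_, rfl⟩
  have hMc : (1 : ℝ) ≤ Mc M c := by exact_mod_cast Nat.pos_of_ne_zero (Mc_ne hM1 h.hc)
  have hrd : (1 : ℝ) ≤ rd (Vp L P) := by exact_mod_cast rd_pos _
  have hQ0 : 0 < Q := by rw [hQ]; positivity
  have hQ2 : Q ^ 2 = (Mc M c : ℝ) ^ 2 * rd (Vp L P) := by
    rw [hQ, mul_pow, Real.sq_sqrt (by positivity)]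
  refine ⟨1 / (96 * k * Q), by positivity, Q ^ 2, fun N hN => ?_⟩
  have hN0 : 0 < N := lt_of_lt_of_le (by positivity) hN
  have hsN : Q ≤ Real.sqrt N := Real.le_sqrt_of_sq_le hN
  obtain ⟨x, hx⟩ : ∃ x : ℝ, x = Real.sqrt N / Q := ⟨_, rfl⟩
  have hx1 : 1 ≤ x := by rw [hx, le_div_iff₀ hQ0]; linarith
  obtain ⟨Z, hZ⟩ : ∃ Z : ℕ, Z = ⌊x⌋₊ := ⟨_, rfl⟩
  have hZx : (Z : ℝ) ≤ x := by rw [hZ]; exact Nat.floor_le (by linarith)
  have hxZ : x < Z + 1 := by rw [hZ]; exact Nat.lt_floor_add_one x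
  have hZ1 : (1 : ℝ) ≤ Z := by
    have : 1 ≤ Z := by rw [hZ]; exact Nat.le_floor (by simpa using hx1)
    exact_mod_cast this
  obtain ⟨G, hG⟩ : ∃ G : Finset ((ℤ × ℤ) × ℕ), G =
    ((Ioc 0 Z).filter fun m => Squarefree m).image fun q => (P, q) := ⟨_, rfl⟩
  have hGc : (x : ℝ) / 8 ≤ G.card := by
    rw [hG, card_image_of_injective]
    · have h1 := Pool.Agent.TH4.HS.sq_count Z
      linarith
    · intro q q' hqq
      exact (Prod.mk.injEq _ _ _ _ ▸ hqq).2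
  obtain ⟨F, hF1, hF2⟩ := many h hM1 hM G (N := N) (fun w hw => by
    rw [hG] at hw
    obtain ⟨q, hq, rfl⟩ := mem_image.1 hw
    obtain ⟨q1, q2⟩ := mem_filter.1 hq
    refine ⟨k1, k2, q2, ?_⟩
    simp only
    have hqx : (q : ℝ) ≤ x := by
      refine le_trans ?_ hZx
      exact_mod_cast (mem_Ioc.1 q1).2
    calc (Mc M c : ℝ) ^ 2 * ((q : ℝ) ^ 2 * rd (Vp L P)) = (q : ℝ) ^ 2 * Q ^ 2 := by rw [hQ2]; ring
      _ ≤ x ^ 2 * Q ^ 2 := by gcongr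
      _ = (x * Q) ^ 2 := by ring
      _ = N := by
        rw [hx, div_mul_cancel₀ _ hQ0.ne', Real.sq_sqrt hN0.le])
  refine ⟨F, fun p hp => ⟨(hF1 p hp).1, (hF1 p hp).2.1, (hF1 p hp).2.2.2⟩, ?_⟩
  rw [div_mul_eq_mul_div, one_mul, div_le_iff₀ (by positivity)]
  have h1 : x / 8 ≤ 12 * k * F.card := hGc.trans hF2
  rw [hx, div_div, div_le_iff₀ (by positivity)] at h1
  linarith

/-- **many twists, four singular fibres** -/
theorem tw_lower4 (h : RF A B k L e c) (hd : d = 1) : ∃ κ : ℝ, 0 < κ ∧ ∃ N0 : ℝ, ∀ N : ℝ, N0 ≤ N →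
    ∃ F : Finset (ℤ × ℤ), (∀ p ∈ F, MinS p.1 p.2 ∧ TwMem A B p.1 p.2 ∧ (Cond p.1 p.2 : ℝ) ≤ N) ∧
      κ * (Real.sqrt N * Real.log N) ≤ F.card := by
  classical
  obtain ⟨M, hM1, hM⟩ := gcdM_ex h
  have hk : (0 : ℝ) < k := by exact_mod_cast h.hk
  have hMc : (1 : ℝ) ≤ Mc M c := by exact_mod_cast Nat.pos_of_ne_zero (Mc_ne hM1 h.hc)
  have hU : (1 : ℝ) ≤ U L := by exact_mod_cast U_pos L
  obtain ⟨Q, hQ⟩ : ∃ Q : ℝ, Q = (Mc M c : ℝ) * (4 * U L : ℝ) ^ 2 := ⟨_, rfl⟩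
  have hQ1 : 1 ≤ Q := by
    rw [hQ]
    refine one_le_mul_of_one_le_of_one_le hMc (one_le_pow₀ ?_)
    linarith
  have hQ0 : 0 < Q := by linarith
  -- the shells
  have hsh : ∀ j : ℕ, ∃ S : Finset (ℤ × ℤ), 2 ≤ j → ((∀ P ∈ S, 0 < P.2 ∧ Pt L P ∧ 4 ^ j < ht P ∧
      ht P ≤ 4 * 4 ^ j) ∧ ((4 ^ j : ℕ) : ℝ) ^ 2 / 2 ≤ S.card) := by
    intro j
    by_cases hj : 2 ≤ j
    · obtain ⟨S, h1, h2⟩ := shell L (4 ^ j) (by
        rw [hd, ← pow_mul]
        calc 2 * (1 + 3) ≤ 4 ^ (2 * 2) := by norm_num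
          _ ≤ 4 ^ (j * 2) := Nat.pow_le_pow_right (by norm_num) (by omega))
      exact ⟨S, fun _ => ⟨h1, h2⟩⟩
    · exact ⟨∅, fun h0 => absurd h0 hj⟩
  choose S hS using hsh
  -- the constant
  refine ⟨1 / (192 * k * Q) / (8 * Real.log 16), by
    have := Real.log_pos (show (1 : ℝ) < 16 by norm_num)
    positivity, (Q * Real.exp (16 * Real.log 16)) ^ 4, fun N hN => ?_⟩
  have hl16 : 0 < Real.log 16 := Real.log_pos (by norm_num)
  have he1 : 1 ≤ Real.exp (16 * Real.log 16) := Real.one_le_exp (by positivity)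
  have hQe : 1 ≤ Q * Real.exp (16 * Real.log 16) := one_le_mul_of_one_le_of_one_le hQ1 he1
  have hN1 : 1 ≤ N := (one_le_pow₀ hQe).trans hN
  have hN0 : 0 < N := by linarith
  have hsN0 : 0 < Real.sqrt N := Real.sqrt_pos.2 hN0
  have hlogN : 4 * (Real.log Q + 16 * Real.log 16) ≤ Real.log N := by
    have h1 := Real.log_le_log (by positivity) hN
    rw [Real.log_pow, Real.log_mul hQ0.ne' (Real.exp_pos _).ne', Real.log_exp] at h1
    push_cast at h1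
    exact h1
  have hlQ : 0 ≤ Real.log Q := Real.log_nonneg hQ1
  have hlsN : Real.log (Real.sqrt N) = Real.log N / 2 := Real.log_sqrt hN0.le
  -- the number of the shells
  obtain ⟨y, hy⟩ : ∃ y : ℝ, y = (Real.log N / 2 - Real.log Q) / Real.log 16 := ⟨_, rfl⟩
  have hy8 : Real.log N / (4 * Real.log 16) ≤ y := by
    rw [hy, div_le_div_iff₀ (by positivity) hl16]
    nlinarith
  have hy16 : 16 ≤ y := by
    refine le_trans ?_ hy8
    rw [le_div_iff₀ (by positivity)]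
    linarith
  obtain ⟨J, hJ⟩ : ∃ J : ℕ, J = ⌊y⌋₊ := ⟨_, rfl⟩
  have hJy : (J : ℝ) ≤ y := by rw [hJ]; exact Nat.floor_le (by linarith)
  have hyJ : y < J + 1 := by rw [hJ]; exact Nat.lt_floor_add_one y
  have hpow : ∀ j ∈ Finset.Ico 2 J, Q * (16 : ℝ) ^ j ≤ Real.sqrt N := by
    intro j hj
    have hjJ : (j : ℝ) ≤ y := by
      refine le_trans ?_ hJy
      exact_mod_cast (mem_Ico.1 hj).2.le
    rw [← Real.log_le_log_iff (by positivity) hsN0, Real.log_mul hQ0.ne' (by positivity),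
      Real.log_pow, hlsN]
    have h1 : (j : ℝ) * Real.log 16 ≤ y * Real.log 16 := mul_le_mul_of_nonneg_right hjJ hl16.le
    rw [hy, div_mul_cancel₀ _ hl16.ne'] at h1
    linarith
  -- the pairs
  obtain ⟨Z, hZ⟩ : ∃ Z : ℕ → ℕ, Z = fun j => ⌊Real.sqrt N / (Q * (16 : ℝ) ^ j)⌋₊ := ⟨_, rfl⟩
  obtain ⟨G, hG⟩ : ∃ G : ℕ → Finset ((ℤ × ℤ) × ℕ), G = fun j =>
    S j ×ˢ ((Ioc 0 (Z j)).filter fun m => Squarefree m) := ⟨_, rfl⟩
  have hGc : ∀ j ∈ Finset.Ico 2 J, Real.sqrt N / (16 * Q) ≤ (G j).card := by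
    intro j hj
    obtain ⟨g1, g2⟩ := hS j (mem_Ico.1 hj).1
    rw [hG]
    simp only
    rw [card_product]
    have h1 := Pool.Agent.TH4.HS.sq_count (Z j)
    have h3 : 1 ≤ Real.sqrt N / (Q * (16 : ℝ) ^ j) := by
      rw [le_div_iff₀ (by positivity), one_mul]
      exact hpow j hj
    have h4 : Real.sqrt N / (Q * (16 : ℝ) ^ j) / 2 ≤ Z j := by
      have h5 : Real.sqrt N / (Q * (16 : ℝ) ^ j) < Z j + 1 := by
        rw [hZ]
        exact Nat.lt_floor_add_one _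
      have h6 : (1 : ℝ) ≤ Z j := by
        have : 1 ≤ Z j := by rw [hZ]; exact Nat.le_floor (by simpa using h3)
        exact_mod_cast this
      linarith
    have h5 : (16 : ℝ) ^ j / 2 ≤ (S j).card := by
      refine le_trans (le_of_eq ?_) g2
      push_cast
      rw [← pow_mul, mul_comm j 2, pow_mul]
      norm_num
    push_cast
    calc Real.sqrt N / (16 * Q) = (16 : ℝ) ^ j / 2 * (Real.sqrt N / (Q * (16 : ℝ) ^ j) / 2 / 4) := by
          field_simp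
          ring
      _ ≤ (S j).card * (((Ioc 0 (Z j)).filter fun m => Squarefree m).card : ℝ) := by
          refine mul_le_mul h5 ?_ (by positivity) (by positivity)
          linarith
  have hdisj : ∀ i ∈ Finset.Ico 2 J, ∀ j ∈ Finset.Ico 2 J, i ≠ j → Disjoint (G i) (G j) := by
    have aux : ∀ i ∈ Finset.Ico 2 J, ∀ j ∈ Finset.Ico 2 J, i < j → Disjoint (G i) (G j) := by
      intro i hi j hj hij
      rw [Finset.disjoint_left]
      intro w hw hw'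
      rw [hG] at hw hw'
      have k1 := ((hS i (mem_Ico.1 hi).1).1 _ (mem_product.1 hw).1).2.2.2
      have k2 := ((hS j (mem_Ico.1 hj).1).1 _ (mem_product.1 hw').1).2.2.1
      have k3 : 4 * 4 ^ i ≤ 4 ^ j := by
        rw [← pow_succ']
        exact Nat.pow_le_pow_right (by norm_num) hij
      omega
    intro i hi j hj hij
    rcases lt_or_gt_of_ne hij with h1 | h1
    · exact aux i hi j hj h1
    · exact (aux j hj i hi h1).symm
  obtain ⟨F, hF1, hF2⟩ := many h hM1 hM ((Finset.Ico 2 J).biUnion G) (N := N) (fun w hw => by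
    obtain ⟨j, hj, hw⟩ := mem_biUnion.1 hw
    rw [hG] at hw
    obtain ⟨w1, w2⟩ := mem_product.1 hw
    obtain ⟨q1, q2⟩ := mem_filter.1 w2
    obtain ⟨k1, k2, k3, k4⟩ := (hS j (mem_Ico.1 hj).1).1 _ w1
    refine ⟨k1, k2, q2, ?_⟩
    have h1 := rd_Vp_le L k2 k4
    have hq : (w.2 : ℝ) ≤ Real.sqrt N / (Q * (16 : ℝ) ^ j) := by
      have h5 : (w.2 : ℝ) ≤ Z j := by exact_mod_cast (mem_Ioc.1 q1).2
      refine h5.trans ?_
      rw [hZ]
      exact Nat.floor_le (by positivity)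
    rw [le_div_iff₀ (by positivity)] at hq
    have e1 : (4 * U L * ((4 ^ j : ℕ) : ℝ) : ℝ) ^ (d + 3) =
        ((4 * U L : ℝ) ^ 2) ^ 2 * ((16 : ℝ) ^ j) ^ 2 := by
      have e0 : ∀ z : ℝ, z ^ (d + 3) = z ^ 4 := fun z => by rw [hd]
      rw [e0]
      push_cast
      have : ((16 : ℝ) ^ j) = ((4 : ℝ) ^ j) ^ 2 := by
        rw [← pow_mul, mul_comm j 2, pow_mul]; norm_num
      rw [this]
      ring
    calc (Mc M c : ℝ) ^ 2 * ((w.2 : ℝ) ^ 2 * rd (Vp L w.1)) ≤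
        (Mc M c : ℝ) ^ 2 * ((w.2 : ℝ) ^ 2 * (4 * U L * ((4 ^ j : ℕ) : ℝ) : ℝ) ^ (d + 3)) := by gcongr
      _ = ((w.2 : ℝ) * (Q * (16 : ℝ) ^ j)) ^ 2 := by rw [e1, hQ]; ring
      _ ≤ (Real.sqrt N) ^ 2 := pow_le_pow_left₀ (by positivity) hq 2
      _ = N := Real.sq_sqrt hN0.le)
  refine ⟨F, fun p hp => ⟨(hF1 p hp).1, (hF1 p hp).2.1, (hF1 p hp).2.2.2⟩, ?_⟩
  rw [card_biUnion hdisj] at hF2
  push_cast at hF2
  have h1 : ((J : ℝ) - 2) * (Real.sqrt N / (16 * Q)) ≤ 12 * k * F.card := by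
    refine le_trans ?_ hF2
    have h2 := Finset.sum_le_sum hGc
    rw [sum_const, Nat.card_Ico, nsmul_eq_mul] at h2
    refine le_trans (mul_le_mul_of_nonneg_right ?_ (by positivity)) h2
    have h3 : 2 ≤ J := by
      have : (2 : ℝ) ≤ J := by linarith
      exact_mod_cast this
    rw [Nat.cast_sub h3]
    push_cast
    exact le_rfl
  have h2 : Real.log N / (8 * Real.log 16) ≤ (J : ℝ) - 2 := by
    have h3 : Real.log N / (8 * Real.log 16) = Real.log N / (4 * Real.log 16) / 2 := by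
      field_simp
      ring
    rw [h3]
    linarith
  have h3 : Real.log N / (8 * Real.log 16) * (Real.sqrt N / (16 * Q)) ≤ 12 * k * F.card :=
    (mul_le_mul_of_nonneg_right h2 (by positivity)).trans h1
  have e1 : 1 / (192 * k * Q) / (8 * Real.log 16) * (Real.sqrt N * Real.log N) =
      (Real.log N / (8 * Real.log 16) * (Real.sqrt N / (16 * Q))) / (12 * k) := by
    field_simp
    ring
  rw [e1, div_le_iff₀ (by positivity)]
  linarith

end Pool.Agent.Y679.Kf
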