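import Pool.Agent.Y679.Kf.Fam

/-! One-parameter families: the conductor of a model in terms of the parameters (helper679). -/

set_option autoImplicit false

namespace Pool.Agent.Y679.Kf

open Finset Polynomial
open Pool.Agent.TH867.QF (Fm ev va Rs Rs_pos Pt U U_pos ht ht_pos va_pos va_le)
open Pool.Agent.TH498.KB (Mem MinS Cond hom_eval prim_of_minS)
open Pool.Agent.W4.VC (hom)

/-- the product of the primes dividing `n` -/
def rd (n : ℕ) : ℕ := ∏ p ∈ n.primeFactors, p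

theorem rd_pos (n : ℕ) : 0 < rd n := Finset.prod_pos fun p hp => (Nat.prime_of_mem_primeFactors hp).pos

theorem rd_dvd (n : ℕ) : rd n ∣ n := Nat.prod_primeFactors_dvd n

theorem rd_le {n : ℕ} (hn : n ≠ 0) : rd n ≤ n := Nat.le_of_dvd (Nat.pos_of_ne_zero hn) (rd_dvd n)

/-- the weight -/
def Wt (V q : ℕ) : ℕ := ∏ p ∈ (q * V).primeFactors, if p ∣ q then p ^ 2 else p

/-- the common primes -/
def gg (V q : ℕ) : ℕ := ∏ p ∈ q.primeFactors ∩ V.primeFactors, p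

theorem gg_pos (V q : ℕ) : 0 < gg V q :=
  Finset.prod_pos fun p hp => (Nat.prime_of_mem_primeFactors (mem_inter.1 hp).1).pos

theorem gg_dvd_rd (V q : ℕ) : gg V q ∣ rd V :=
  Finset.prod_dvd_prod_of_subset _ _ _ Finset.inter_subset_right

theorem gg_dvd (V q : ℕ) : gg V q ∣ q :=
  (Finset.prod_dvd_prod_of_subset _ _ _ Finset.inter_subset_left).trans (rd_dvd q)

theorem Wt_gg {V q : ℕ} (hV : V ≠ 0) (hq : Squarefree q) : Wt V q * gg V q = q ^ 2 * rd V := by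
  have hq0 : q ≠ 0 := hq.ne_zero
  have e1 : q = ∏ p ∈ q.primeFactors, p := (Nat.prod_primeFactors_of_squarefree hq).symm
  have e2 : Wt V q = (∏ p ∈ q.primeFactors, p ^ 2) * ∏ p ∈ V.primeFactors \ q.primeFactors, p := by
    unfold Wt
    rw [Nat.primeFactors_mul hq0 hV, ← Finset.union_sdiff_self_eq_union,
      Finset.prod_union Finset.disjoint_sdiff]
    congr 1
    · refine Finset.prod_congr rfl fun p hp => ?_
      rw [if_pos (Nat.dvd_of_mem_primeFactors hp)]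
    · refine Finset.prod_congr rfl fun p hp => ?_
      obtain ⟨h1, h2⟩ := mem_sdiff.1 hp
      rw [if_neg]
      intro h3
      exact h2 (Nat.mem_primeFactors.2 ⟨Nat.prime_of_mem_primeFactors h1, h3, hq0⟩)
  have e3 : rd V = (∏ p ∈ V.primeFactors \ q.primeFactors, p) * gg V q := by
    unfold rd gg
    rw [← Finset.prod_sdiff (Finset.inter_subset_right (s₁ := q.primeFactors)
      (s₂ := V.primeFactors))]
    congr 1
    refine Finset.prod_congr ?_ fun _ _ => rfl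
    ext p
    simp only [mem_sdiff, mem_inter]
    tauto
  rw [e2, e3, Finset.prod_pow, ← e1]
  ring

theorem Wt_le {V q : ℕ} (hV : V ≠ 0) (hq : Squarefree q) : Wt V q ≤ q ^ 2 * rd V := by
  rw [← Wt_gg hV hq]
  exact Nat.le_mul_of_pos_right _ (gg_pos V q)

theorem rd_le_Wt {V q : ℕ} (hV : V ≠ 0) (hq : Squarefree q) : q * rd V ≤ Wt V q := by
  have h1 := Wt_gg hV hq
  have h2 : gg V q ≤ q := Nat.le_of_dvd (Nat.pos_of_ne_zero hq.ne_zero) (gg_dvd V q)
  have h3 : q * (q * rd V) ≤ q * Wt V q := by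
    calc q * (q * rd V) = q ^ 2 * rd V := by ring
      _ = Wt V q * gg V q := h1.symm
      _ ≤ Wt V q * q := Nat.mul_le_mul_left _ h2
      _ = q * Wt V q := by ring
  exact Nat.le_of_mul_le_mul_left h3 (Nat.pos_of_ne_zero hq.ne_zero)

theorem Wt_one {V : ℕ} (hV : V ≠ 0) : Wt V 1 = rd V := by
  have h := Wt_gg hV squarefree_one
  have h2 : gg V 1 = 1 := Nat.dvd_one.1 (gg_dvd V 1)
  rw [h2] at h
  linarith

/-- comparing two products of primes and squares of primes -/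
theorem prod_cmp {M : ℕ} (hM : M ≠ 0) (S T : Finset ℕ) (f g : ℕ → ℕ)
    (hS : ∀ p ∈ S, p.Prime ∧ f p ≤ p ^ 2) (hT : ∀ p ∈ T, 1 ≤ g p)
    (h : ∀ p ∈ S, ¬ p ∣ M → p ∈ T ∧ f p ≤ g p) : ∏ p ∈ S, f p ≤ M ^ 2 * ∏ p ∈ T, g p := by
  classical
  rw [← Finset.prod_filter_mul_prod_filter_not S (fun p => p ∣ M)]
  refine Nat.mul_le_mul ?_ ?_
  · calc ∏ p ∈ S.filter (fun p => p ∣ M), f p ≤ ∏ p ∈ S.filter (fun p => p ∣ M), p ^ 2 :=
        Finset.prod_le_prod' fun p hp => (hS p (mem_filter.1 hp).1).2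
      _ = (∏ p ∈ S.filter (fun p => p ∣ M), p) ^ 2 := Finset.prod_pow _ _ _
      _ ≤ M ^ 2 := by
        refine Nat.pow_le_pow_left (Nat.le_of_dvd (Nat.pos_of_ne_zero hM) ?_) 2
        exact Finset.prod_primes_dvd _ (fun p hp => (hS p (mem_filter.1 hp).1).1.prime)
          fun p hp => (mem_filter.1 hp).2
  · calc ∏ p ∈ S.filter (fun p => ¬ p ∣ M), f p ≤ ∏ p ∈ S.filter (fun p => ¬ p ∣ M), g p :=
        Finset.prod_le_prod' fun p hp => (h p (mem_filter.1 hp).1 (mem_filter.1 hp).2).2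
      _ ≤ ∏ p ∈ T, g p := by
        refine Finset.prod_le_prod_of_subset_of_one_le' ?_ fun p hp _ => hT p hp
        intro p hp
        exact (h p (mem_filter.1 hp).1 (mem_filter.1 hp).2).1

variable {r : ℕ} {A B : ℤ[X]} {k : ℕ} {L : Fm r} {e : Fin r → ℕ} {c : ℤ}

/-- the product of the values -/
def Vp (L : Fm r) (P : ℤ × ℤ) : ℕ := ∏ i, va L P i

theorem Vp_ne {P : ℤ × ℤ} (h : Pt L P) : Vp L P ≠ 0 :=
  (Finset.prod_pos fun i _ => va_pos h i).ne'

/-- the primes outside `M'` -/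
theorem primes_rel (h : RF A B k L e c) {M : ℕ} (hM : GcdM A B k M)
    {a b q s : ℤ} {P : ℤ × ℤ} (hP : P.2 ≠ 0) (hpt : Pt L P) (hs : s ∣ M)
    (hr : Rel A B k a b P q s) {p : ℕ} (hp : p.Prime) (hpM : ¬ p ∣ 6 * M * c.natAbs) :
    ((p : ℤ) ∣ 4 * a ^ 3 - 27 * b ^ 2 ↔ p ∣ q.natAbs * Vp L P) ∧
    (p ∣ q.natAbs → (p : ℤ) ∣ a) ∧ (¬ p ∣ q.natAbs → p ∣ Vp L P → ¬ (p : ℤ) ∣ a) := by
  have hpZ : Prime (p : ℤ) := Nat.prime_iff_prime_int.1 hp
  have hp6 : ¬ p ∣ 6 := fun h1 => hpM ((h1.mul_right _).mul_right _)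
  have hpM1 : ¬ p ∣ M := fun h1 => hpM ((h1.mul_left _).mul_right _)
  have hpc : ¬ p ∣ c.natAbs := fun h1 => hpM (h1.mul_left _)
  have hpcZ : ¬ (p : ℤ) ∣ c := fun h1 => hpc (Int.natCast_dvd.1 h1)
  have hps : ¬ (p : ℤ) ∣ s := fun h1 => hpM1 (Int.natCast_dvd_natCast.1 (h1.trans hs))
  have hqZ : (p : ℤ) ∣ q ↔ p ∣ q.natAbs := Int.natCast_dvd
  have hd := hr.disc h hP
  have hVZ : p ∣ Vp L P ↔ ∃ i, (p : ℤ) ∣ ev L P i := by
    unfold Vp
    rw [hp.prime.dvd_finsetProd_iff]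
    constructor
    · rintro ⟨i, -, hi⟩
      exact ⟨i, Int.natCast_dvd.2 hi⟩
    · rintro ⟨i, hi⟩
      exact ⟨i, mem_univ i, Int.natCast_dvd.1 hi⟩
  have hDs : (p : ℤ) ∣ Ds L e c P ↔ ∃ i, (p : ℤ) ∣ ev L P i := by
    unfold Ds
    constructor
    · intro h1
      rcases hpZ.dvd_mul.1 h1 with h2 | h2
      · exact absurd h2 hpcZ
      · obtain ⟨i, -, hi⟩ := (hpZ.dvd_finsetProd_iff _).1 h2
        exact ⟨i, hpZ.dvd_of_dvd_pow hi⟩
    · rintro ⟨i, hi⟩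
      refine Dvd.dvd.mul_left ?_ _
      refine (dvd_pow hi ?_).trans (Finset.dvd_prod_of_mem (fun i => ev L P i ^ e i) (mem_univ i))
      have := h.he i
      omega
  refine ⟨?_, ?_, ?_⟩
  · constructor
    · intro h1
      have h2 : (p : ℤ) ∣ q ^ 6 * Ds L e c P := by
        rw [← hd]; exact h1.mul_right _
      rcases hpZ.dvd_mul.1 h2 with h3 | h3
      · exact (hqZ.1 (hpZ.dvd_of_dvd_pow h3)).mul_right _
      · exact (hVZ.2 (hDs.1 h3)).mul_left _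
    · intro h1
      have h2 : (p : ℤ) ∣ q ^ 6 * Ds L e c P := by
        rcases hp.dvd_mul.1 h1 with h3 | h3
        · exact (dvd_pow (hqZ.2 h3) (by norm_num)).mul_right _
        · exact (hDs.2 (hVZ.1 h3)).mul_left _
      rw [← hd] at h2
      rcases hpZ.dvd_mul.1 h2 with h3 | h3
      · exact h3
      · exact absurd (hpZ.dvd_of_dvd_pow h3) hps
  · intro h1
    have h2 : (p : ℤ) ∣ a * s ^ 2 := by
      rw [hr.h1]
      exact (dvd_pow (hqZ.2 h1) (by norm_num)).mul_right _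
    rcases hpZ.dvd_mul.1 h2 with h3 | h3
    · exact h3
    · exact absurd (hpZ.dvd_of_dvd_pow h3) hps
  · intro h1 h2 h3
    have h4 : (p : ℤ) ∣ q ^ 2 * hom A (2 * k) P.1 P.2 := by
      rw [← hr.h1]; exact h3.mul_right _
    have h5 : (p : ℤ) ∣ hom A (2 * k) P.1 P.2 := by
      rcases hpZ.dvd_mul.1 h4 with h6 | h6
      · exact absurd (hqZ.1 (hpZ.dvd_of_dvd_pow h6)) h1
      · exact h6
    have h6 : (p : ℤ) ∣ 27 * hom B (3 * k) P.1 P.2 ^ 2 := by
      have e1 : 27 * hom B (3 * k) P.1 P.2 ^ 2 = 4 * hom A (2 * k) P.1 P.2 ^ 3 - Ds L e c P := by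
        rw [← disc_hom h P hP]; ring
      rw [e1]
      exact dvd_sub ((dvd_pow h5 (by norm_num)).mul_left _) (hDs.2 (hVZ.1 h2))
    have h7 : (p : ℤ) ∣ hom B (3 * k) P.1 P.2 := by
      rcases hpZ.dvd_mul.1 h6 with h8 | h8
      · exfalso
        have h9 : p ∣ 27 := by exact_mod_cast h8
        have h10 : p ∣ 3 := hp.dvd_of_dvd_pow (show p ∣ 3 ^ 3 by norm_num; exact h9)
        exact hp6 (h10.trans (by norm_num))
      · exact hpZ.dvd_of_dvd_pow h8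
    exact hpM1 (Int.natCast_dvd_natCast.1 (hM _ _ hpt.cop _ h5 h7))

/-- the constant -/
def Mc (M : ℕ) (c : ℤ) : ℕ := 6 * M * c.natAbs

theorem Mc_ne {M : ℕ} (hM : 1 ≤ M) {c : ℤ} (hc : c ≠ 0) : Mc M c ≠ 0 := by
  unfold Mc
  have := Int.natAbs_ne_zero.2 hc
  positivity

theorem cond_ge (h : RF A B k L e c) {M : ℕ} (hM1 : 1 ≤ M) (hM : GcdM A B k M)
    {a b q s : ℤ} {P : ℤ × ℤ} (hP : P.2 ≠ 0) (hpt : Pt L P) (hs : s ∣ M)
    (hD : 4 * a ^ 3 - 27 * b ^ 2 ≠ 0)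
    (hr : Rel A B k a b P q s) : Wt (Vp L P) q.natAbs ≤ Mc M c ^ 2 * Cond a b := by
  unfold Wt Cond
  refine prod_cmp (Mc_ne hM1 h.hc) _ _ _ _ ?_ ?_ ?_
  · intro p hp
    have hpp := Nat.prime_of_mem_primeFactors hp
    refine ⟨hpp, ?_⟩
    split_ifs
    · exact le_rfl
    · exact Nat.le_self_pow (by norm_num) p
  · intro p hp
    have hpp := Nat.prime_of_mem_primeFactors (mem_filter.1 hp).1
    split_ifs
    · exact Nat.one_le_pow _ _ hpp.pos
    · exact hpp.one_le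
  · intro p hp hpM
    have hpp := Nat.prime_of_mem_primeFactors hp
    obtain ⟨k1, k2, k3⟩ := primes_rel h hM hP hpt hs hr hpp hpM
    have h1 := k1.2 (Nat.dvd_of_mem_primeFactors hp)
    have h5 : 5 ≤ p := by
      by_contra hcon
      have h6 : p = 2 ∨ p = 3 := by
        have := hpp.two_le
        have h4 : p ≠ 4 := by rintro rfl; exact absurd hpp (by norm_num)
        omega
      have h7 : p ∣ 6 := by rcases h6 with rfl | rfl <;> norm_num
      exact hpM ((h7.mul_right _).mul_right _)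
    refine ⟨mem_filter.2 ⟨Nat.mem_primeFactors.2 ⟨hpp, Int.natCast_dvd.1 h1,
      Int.natAbs_ne_zero.2 hD⟩, h5⟩, ?_⟩
    by_cases hpq : p ∣ q.natAbs
    · rw [if_pos hpq, if_pos (k2 hpq)]
    · rw [if_neg hpq]
      split_ifs
      · exact Nat.le_self_pow (by norm_num) p
      · exact le_rfl

theorem cond_le (h : RF A B k L e c) {M : ℕ} (hM1 : 1 ≤ M) (hM : GcdM A B k M)
    {a b q s : ℤ} {P : ℤ × ℤ} (hP : P.2 ≠ 0) (hpt : Pt L P) (hs : s ∣ M) (hq : q ≠ 0)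
    (hr : Rel A B k a b P q s) : Cond a b ≤ Mc M c ^ 2 * Wt (Vp L P) q.natAbs := by
  unfold Wt Cond
  refine prod_cmp (Mc_ne hM1 h.hc) _ _ _ _ ?_ ?_ ?_
  · intro p hp
    have hpp := Nat.prime_of_mem_primeFactors (mem_filter.1 hp).1
    refine ⟨hpp, ?_⟩
    split_ifs
    · exact le_rfl
    · exact Nat.le_self_pow (by norm_num) p
  · intro p hp
    have hpp := Nat.prime_of_mem_primeFactors hp
    split_ifs
    · exact Nat.one_le_pow _ _ hpp.pos
    · exact hpp.one_le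
  · intro p hp hpM
    obtain ⟨hp1, hp5⟩ := mem_filter.1 hp
    have hpp := Nat.prime_of_mem_primeFactors hp1
    obtain ⟨k1, k2, k3⟩ := primes_rel h hM hP hpt hs hr hpp hpM
    have h1 : (p : ℤ) ∣ 4 * a ^ 3 - 27 * b ^ 2 := Int.natCast_dvd.2 (Nat.dvd_of_mem_primeFactors hp1)
    have h2 := k1.1 h1
    refine ⟨Nat.mem_primeFactors.2 ⟨hpp, h2, Nat.mul_ne_zero (Int.natAbs_ne_zero.2 hq)
      (Vp_ne hpt)⟩, ?_⟩
    by_cases hpq : p ∣ q.natAbs
    · rw [if_pos hpq, if_pos (k2 hpq)]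
    · have hV : p ∣ Vp L P := by
        rcases hpp.dvd_mul.1 h2 with h3 | h3
        · exact absurd h3 hpq
        · exact h3
      rw [if_neg hpq, if_neg (k3 hpq hV)]

end Pool.Agent.Y679.Kf
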